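import Pool.Agent.Helper51_Refl.Lor

/-!
# Modules EDGE1 and EDGE2 of the squad REFL (MP_c70e36_gt)
Vertices and edges of the compact cone.
-/

set_option autoImplicit false

namespace Pool.Agent.Refl.H51

open Matrix

section cham
variable {G : M4} {n : ℕ} {e : Fin n → Z4} {O : R4}

lemma bzO_up (a b : Z4) : (bz G a b : ℝ) = br G (up a) (up b) := (br_up G a b).symm

/-- no point of the cone except zero is orthogonal to `O` -/
lemma ne_O (hG : Lat G) (hC : Cham G n e O) {V : R4} (hV : V ≠ 0)
    (hK : ∀ m, br G V (up (e m)) ≤ 0) : br G V O ≠ 0 ∧ br G V V < 0 := by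
  obtain ⟨c, hc, h⟩ := hC.cpt
  have h1 := h V hK
  have h2 : br G V O ≠ 0 := by
    intro h0
    have h3 := pos hG.sig hC.Oneg h0 hV
    rw [h0] at h1
    simp at h1
    linarith
  refine ⟨h2, lt_of_le_of_lt h1 ?_⟩
  have : 0 < (br G V O) ^ 2 := by positivity
  nlinarith

/-- leaving the cone along a direction orthogonal to `O` -/
lemma leave (hG : Lat G) (hC : Cham G n e O) {V w : R4} (hV : V ≠ 0)
    (hK : ∀ m, br G V (up (e m)) ≤ 0) (hw : w ≠ 0) (hwO : br G w O = 0)
    (H : ∀ m, 0 < br G w (up (e m)) → br G V (up (e m)) < 0) :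
    ∃ (l : Fin n) (t : ℝ), 0 < t ∧ 0 < br G w (up (e l)) ∧ V + t • w ≠ 0 ∧
      (∀ m, br G (V + t • w) (up (e m)) ≤ 0) ∧ br G (V + t • w) (up (e l)) = 0 := by
  classical
  let S : Finset (Fin n) := Finset.univ.filter fun m => 0 < br G w (up (e m))
  have hS : S.Nonempty := by
    by_contra hne
    rw [Finset.not_nonempty_iff_eq_empty] at hne
    have h1 : ∀ m, br G w (up (e m)) ≤ 0 := by
      intro m
      by_contra h
      rw [not_le] at h
      have : m ∈ S := by simp [S, h]
      rw [hne] at this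
      exact absurd this (Finset.notMem_empty _)
    exact (ne_O hG hC hw h1).1 hwO
  obtain ⟨l, hl, hmin⟩ := Finset.exists_min_image S
    (fun m => -(br G V (up (e m))) / br G w (up (e m))) hS
  have hl' : 0 < br G w (up (e l)) := by simpa [S] using hl
  set t := -(br G V (up (e l))) / br G w (up (e l)) with ht
  have ht0 : 0 < t := div_pos (by have := H l hl'; linarith) hl'
  have hz : br G (V + t • w) (up (e l)) = 0 := by
    rw [br_add_left, br_smul_left, ht, div_mul_cancel₀ _ hl'.ne']
    ring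
  refine ⟨l, t, ht0, hl', ?_, ?_, hz⟩
  · intro h0
    have h1 := (ne_O hG hC hV hK).1
    apply h1
    have h2 : br G (V + t • w) O = 0 := by rw [h0, br_zero_left]
    rw [br_add_left, br_smul_left, hwO] at h2
    linarith
  · intro m
    rw [br_add_left, br_smul_left]
    by_cases hm : 0 < br G w (up (e m))
    · have h1 := hmin m (by simp [S, hm])
      have h2 : t ≤ -(br G V (up (e m))) / br G w (up (e m)) := h1
      rw [le_div_iff₀ hm] at h2
      linarith
    · rw [not_lt] at hm
      have := hK m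
      nlinarith

/-- A7c -/
theorem vertexStrict : VertexStrictStmt := by
  intro G n e O hG hC i j k hij hjk hik V hV hK hi hj hk
  have hVV := (ne_O hG hC hV hK).2
  refine ⟨hVV, fun m hmi hmj hmk => ?_⟩
  by_contra hm
  rw [not_lt] at hm
  have hm0 : br G V (up (e m)) = 0 := le_antisymm (hK m) hm
  let idx : Fin 4 → Fin n := ![i, j, k, m]
  have hinj : ∀ a b, a ≠ b → idx a ≠ idx b := by
    intro a b hab
    fin_cases a <;> fin_cases b <;> simp [idx] at hab ⊢ <;>
      first | exact hij | exact hik | exact hjk | exact hij.symm | exact hik.symm |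
        exact hjk.symm | exact hmi | exact hmj | exact hmk | exact hmi.symm |
        exact hmj.symm | exact hmk.symm
  have horth : ∀ a, br G V (up (e (idx a))) = 0 := by
    intro a
    fin_cases a
    · exact hi
    · exact hj
    · exact hk
    · exact hm0
  obtain ⟨c, hc, hc2⟩ := dep hG.sig hV (fun a => up (e (idx a))) horth
  apply hc
  refine ind hG (fun a => up (e (idx a))) hVV ?_ (fun a => hC.neg _) horth c hc2
  intro a b hab
  rw [br_up]
  exact_mod_cast hC.obt _ _ (hinj a b hab)

/-- the quadratic form on the span of three facets of a vertex is positive definite -/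
lemma vertex_quad (hG : Lat G) (hC : Cham G n e O) {i j k : Fin n} (hij : i ≠ j) (hjk : j ≠ k)
    (hik : i ≠ k) {V : R4} (hV : V ≠ 0) (hK : ∀ m, br G V (up (e m)) ≤ 0)
    (hi : br G V (up (e i)) = 0) (hj : br G V (up (e j)) = 0) (hk : br G V (up (e k)) = 0)
    (x y z : ℝ) (hne : x ≠ 0 ∨ y ≠ 0 ∨ z ≠ 0) :
    0 < (bz G (e i) (e i) : ℝ) * x ^ 2 + (bz G (e j) (e j) : ℝ) * y ^ 2 +
      (bz G (e k) (e k) : ℝ) * z ^ 2 + 2 * (bz G (e i) (e j) : ℝ) * (x * y) +
      2 * (bz G (e i) (e k) : ℝ) * (x * z) + 2 * (bz G (e j) (e k) : ℝ) * (y * z) := by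
  have hVV := (ne_O hG hC hV hK).2
  let u : R4 := x • up (e i) + y • up (e j) + z • up (e k)
  have hu : br G u u = (bz G (e i) (e i) : ℝ) * x ^ 2 + (bz G (e j) (e j) : ℝ) * y ^ 2 +
      (bz G (e k) (e k) : ℝ) * z ^ 2 + 2 * (bz G (e i) (e j) : ℝ) * (x * y) +
      2 * (bz G (e i) (e k) : ℝ) * (x * z) + 2 * (bz G (e j) (e k) : ℝ) * (y * z) := by
    simp only [u, br_add_left, br_add_right, br_smul_left, br_smul_right, br_up]
    rw [bz_comm hG.symm (e j) (e i), bz_comm hG.symm (e k) (e i), bz_comm hG.symm (e k) (e j)]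
    ring
  rw [← hu]
  have huV : br G u V = 0 := by
    rw [br_comm hG.symm]
    simp only [u, br_add_right, br_smul_right, hi, hj, hk]
    ring
  refine pos hG.sig hVV huV ?_
  intro h0
  let idx : Fin 3 → Fin n := ![i, j, k]
  have hinj : ∀ a b, a ≠ b → idx a ≠ idx b := by
    intro a b hab
    fin_cases a <;> fin_cases b <;> simp [idx] at hab ⊢ <;>
      first | exact hij | exact hik | exact hjk | exact hij.symm | exact hik.symm |
        exact hjk.symm
  have horth : ∀ a, br G V (up (e (idx a))) = 0 := by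
    intro a
    fin_cases a
    · exact hi
    · exact hj
    · exact hk
  have hc := ind hG (fun a => up (e (idx a))) hVV (fun a b hab => by
    rw [br_up]
    exact_mod_cast hC.obt _ _ (hinj a b hab)) (fun a => hC.neg _) horth ![x, y, z] (by
      rw [Fin.sum_univ_three]
      exact h0)
  rcases hne with h | h | h
  · exact h (congrFun hc 0)
  · exact h (congrFun hc 1)
  · exact h (congrFun hc 2)

/-- A7b -/
theorem vertexPos : VertexPosStmt := by
  intro G n e O hG hC i j k ⟨hij, hjk, hik, V, hV, hK, hi, hj, hk⟩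
  have hq := vertex_quad hG hC hij hjk hik hV hK hi hj hk
  have ki : (0 : ℝ) < bz G (e i) (e i) := by exact_mod_cast (hC.root i).pos
  have kj : (0 : ℝ) < bz G (e j) (e j) := by exact_mod_cast (hC.root j).pos
  have kk : (0 : ℝ) < bz G (e k) (e k) := by exact_mod_cast (hC.root k).pos
  set A : ℝ := ((bz G (e i) (e i) : ℤ) : ℝ) with hA
  set B : ℝ := ((bz G (e j) (e j) : ℤ) : ℝ) with hB
  set D : ℝ := ((bz G (e k) (e k) : ℤ) : ℝ) with hD
  set a : ℝ := ((bz G (e i) (e j) : ℤ) : ℝ) with ha
  set b : ℝ := ((bz G (e i) (e k) : ℤ) : ℝ) with hb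
  set d : ℝ := ((bz G (e j) (e k) : ℤ) : ℝ) with hd
  have h1 : 0 < A * B - a ^ 2 := by
    have := hq (-a) A 0 (Or.inr (Or.inl ki.ne'))
    have h2 : 0 < A * (A * B - a ^ 2) := by nlinarith
    exact (mul_pos_iff_of_pos_left ki).1 h2
  have h2 : 0 < A * D - b ^ 2 := by
    have := hq (-b) 0 A (Or.inr (Or.inr ki.ne'))
    have h2 : 0 < A * (A * D - b ^ 2) := by nlinarith
    exact (mul_pos_iff_of_pos_left ki).1 h2
  have h3 : 0 < B * D - d ^ 2 := by
    have := hq 0 (-d) B (Or.inr (Or.inr kj.ne'))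
    have h2 : 0 < B * (B * D - d ^ 2) := by nlinarith
    exact (mul_pos_iff_of_pos_left kj).1 h2
  have h4 : 0 < A * B * D + 2 * a * b * d - A * d ^ 2 - B * b ^ 2 - D * a ^ 2 := by
    have := hq (a * d - b * B) (a * b - d * A) (A * B - a ^ 2) (Or.inr (Or.inr h1.ne'))
    have h5 : 0 < (A * B - a ^ 2) * (A * B * D + 2 * a * b * d - A * d ^ 2 - B * b ^ 2 -
        D * a ^ 2) := by nlinarith
    exact (mul_pos_iff_of_pos_left h1).1 h5
  refine ⟨?_, ?_, ?_, ?_⟩
  · have : (0 : ℝ) < ((g2 G (e i) (e j) : ℤ) : ℝ) := by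
      unfold g2
      push_cast
      exact h1
    exact_mod_cast this
  · have : (0 : ℝ) < ((g2 G (e i) (e k) : ℤ) : ℝ) := by
      unfold g2
      push_cast
      exact h2
    exact_mod_cast this
  · have : (0 : ℝ) < ((g2 G (e j) (e k) : ℤ) : ℝ) := by
      unfold g2
      push_cast
      exact h3
    exact_mod_cast this
  · have : (0 : ℝ) < ((g3 G (e i) (e j) (e k) (e k) : ℤ) : ℝ) := by
      unfold g3
      rw [Matrix.det_fin_three]
      simp
      rw [← hA, ← hB, ← hD, ← ha, ← hb, ← hd]
      nlinarith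
    exact_mod_cast this

open Classical in
/-- the facets vanishing at a point -/
noncomputable def ZV (G : M4) {n : ℕ} (e : Fin n → Z4) (V : R4) : Finset (Fin n) :=
  Finset.univ.filter fun m => br G V (up (e m)) = 0

lemma mem_ZV {V : R4} {m : Fin n} : m ∈ ZV G e V ↔ br G V (up (e m)) = 0 := by
  classical
  simp [ZV]

lemma improve (hG : Lat G) (hC : Cham G n e O) {V : R4} (hV : V ≠ 0)
    (hK : ∀ m, br G V (up (e m)) ≤ 0) (h2 : (ZV G e V).card ≤ 2) :
    ∃ V' : R4, V' ≠ 0 ∧ (∀ m, br G V' (up (e m)) ≤ 0) ∧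
      (ZV G e V).card < (ZV G e V').card := by
  classical
  obtain ⟨w, hw, hwA⟩ := sol (G := G) (ι := Option (ZV G e V))
    (by rw [Fintype.card_option, Fintype.card_coe]; omega)
    (fun a => match a with
      | none => O
      | some m => up (e m))
  have hwO : br G w O = 0 := hwA none
  have hwm : ∀ m, br G V (up (e m)) = 0 → br G w (up (e m)) = 0 := fun m hm =>
    hwA (some ⟨m, mem_ZV.2 hm⟩)
  obtain ⟨l, t, ht, hl, h1, h3, h4⟩ := leave hG hC hV hK hw hwO (by
    intro m hm
    refine lt_of_le_of_ne (hK m) fun h0 => ?_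
    rw [hwm m h0] at hm
    exact lt_irrefl _ hm)
  refine ⟨V + t • w, h1, h3, Finset.card_lt_card ?_⟩
  rw [Finset.ssubset_iff_of_subset]
  · refine ⟨l, mem_ZV.2 h4, ?_⟩
    rw [mem_ZV]
    intro h0
    rw [hwm l h0] at hl
    exact lt_irrefl _ hl
  · intro m hm
    rw [mem_ZV] at hm ⊢
    rw [br_add_left, br_smul_left, hm, hwm m hm]
    ring

/-- A7a -/
theorem vertex : VertexStmt := by
  intro G n e O hG hC
  have key : ∀ (d : ℕ) (V : R4), V ≠ 0 → (∀ m, br G V (up (e m)) ≤ 0) →
      n ≤ (ZV G e V).card + d → ∃ i j k, IsV G e i j k := by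
    intro d
    induction d with
    | zero =>
      intro V hV hK hd
      by_cases h3 : 2 < (ZV G e V).card
      · obtain ⟨i, hi, j, hj, k, hk, hij, hik, hjk⟩ := Finset.two_lt_card.1 h3
        rw [mem_ZV] at hi hj hk
        exact ⟨i, j, k, hij, hjk, hik, V, hV, hK, hi, hj, hk⟩
      · obtain ⟨V', -, -, h⟩ := improve hG hC hV hK (by omega)
        have h4 : (ZV G e V').card ≤ n := by
          have := Finset.card_le_univ (ZV G e V')
          simpa using this
        omega
    | succ d ih =>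
      intro V hV hK hd
      by_cases h3 : 2 < (ZV G e V).card
      · obtain ⟨i, hi, j, hj, k, hk, hij, hik, hjk⟩ := Finset.two_lt_card.1 h3
        rw [mem_ZV] at hi hj hk
        exact ⟨i, j, k, hij, hjk, hik, V, hV, hK, hi, hj, hk⟩
      · obtain ⟨V', hV', hK', h⟩ := improve hG hC hV hK (by omega)
        exact ih V' hV' hK' (by omega)
  have hO : O ≠ 0 := by
    intro h0
    have := hC.Oneg
    rw [h0, br_zero_left] at this
    exact lt_irrefl _ this
  exact key n O hO (fun m => (hC.neg m).le) (by omega)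

/-- A7d -/
theorem farEnd : FarEndStmt := by
  intro G n e O hG hC i j k ⟨hij, hjk, hik, V, hV, hK, hi, hj, hk⟩
  obtain ⟨hVO, hVV⟩ := ne_O hG hC hV hK
  have hstrict := (vertexStrict G n e O hG hC i j k hij hjk hik V hV hK hi hj hk).2
  obtain ⟨w, hw, hwA⟩ := sol (G := G) (ι := Fin 3) (by simp) ![up (e i), up (e j), O]
  have hwi : br G w (up (e i)) = 0 := hwA 0
  have hwj : br G w (up (e j)) = 0 := hwA 1
  have hwO : br G w O = 0 := hwA 2
  have hwk : br G w (up (e k)) ≠ 0 := by
    intro hwk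
    -- `w' = w - λ V` is orthogonal to `V` and to the three facets
    let w' : R4 := w - (br G w V / br G V V) • V
    have h1 : br G V w' = 0 := by
      simp only [w', br_sub_right, br_smul_right]
      rw [br_comm hG.symm V w, div_mul_cancel₀ _ hVV.ne, sub_self]
    have h2 : ∀ x, br G w x = 0 → br G V x = 0 → br G w' x = 0 := by
      intro x hx hx2
      simp only [w', br_sub_left, br_smul_left, hx, hx2]
      ring
    have hw' : w' ≠ 0 := by
      intro h0
      have h3 : br G w' O = 0 := by rw [h0, br_zero_left]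
      simp only [w', br_sub_left, br_smul_left, hwO] at h3
      have h4 : br G w V / br G V V = 0 := by
        rcases mul_eq_zero.1 (show br G w V / br G V V * br G V O = 0 by linarith) with h | h
        · exact h
        · exact absurd h hVO
      apply hw
      simp only [w'] at h0
      rw [h4, zero_smul, sub_zero] at h0
      exact h0
    have hq : 0 < br G w' w' := pos hG.sig hVV (by rw [br_comm hG.symm]; exact h1) hw'
    obtain ⟨c, hc, hc2⟩ := dep hG.sig hV ![up (e i), up (e j), up (e k), w'] (by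
      intro a
      fin_cases a
      · exact hi
      · exact hj
      · exact hk
      · exact h1)
    rw [Fin.sum_univ_four] at hc2
    have hc2' : c 0 • up (e i) + c 1 • up (e j) + c 2 • up (e k) + c 3 • w' = 0 := hc2
    have hc3 : c 3 = 0 := by
      have h5 : br G w' (c 0 • up (e i) + c 1 • up (e j) + c 2 • up (e k) + c 3 • w') = 0 := by
        rw [hc2', br_zero_right]
      simp only [br_add_right, br_smul_right, h2 _ hwi hi, h2 _ hwj hj, h2 _ hwk hk] at h5
      rcases mul_eq_zero.1 (show c 3 * br G w' w' = 0 by linarith) with h | h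
      · exact h
      · exact absurd h hq.ne'
    rw [hc3, zero_smul, add_zero] at hc2'
    apply hc
    have hz : c 0 = 0 ∧ c 1 = 0 ∧ c 2 = 0 := by
      by_contra hne
      have hne' : c 0 ≠ 0 ∨ c 1 ≠ 0 ∨ c 2 ≠ 0 := by
        by_contra h
        push Not at h
        exact hne h
      have h6 := vertex_quad hG hC hij hjk hik hV hK hi hj hk (c 0) (c 1) (c 2) hne'
      have h7 : br G (c 0 • up (e i) + c 1 • up (e j) + c 2 • up (e k))
          (c 0 • up (e i) + c 1 • up (e j) + c 2 • up (e k)) = 0 := by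
        rw [hc2', br_zero_left]
      simp only [br_add_left, br_add_right, br_smul_left, br_smul_right, br_up] at h7
      rw [bz_comm hG.symm (e j) (e i), bz_comm hG.symm (e k) (e i),
        bz_comm hG.symm (e k) (e j)] at h7
      linarith
    funext a
    fin_cases a
    · exact hz.1
    · exact hz.2.1
    · exact hz.2.2
    · exact hc3
  -- choose the direction with `(w, e_k) < 0`
  obtain ⟨w, hw, hwi, hwj, hwO, hwk⟩ : ∃ w : R4, w ≠ 0 ∧ br G w (up (e i)) = 0 ∧
      br G w (up (e j)) = 0 ∧ br G w O = 0 ∧ br G w (up (e k)) < 0 := by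
    rcases lt_or_gt_of_ne hwk with h | h
    · exact ⟨w, hw, hwi, hwj, hwO, h⟩
    · refine ⟨-w, neg_ne_zero.2 hw, ?_, ?_, ?_, ?_⟩
      · rw [br_neg_left, hwi, neg_zero]
      · rw [br_neg_left, hwj, neg_zero]
      · rw [br_neg_left, hwO, neg_zero]
      · rw [br_neg_left]; linarith
  obtain ⟨l, t, ht, hl, h1, h3, h4⟩ := leave hG hC hV hK hw hwO (by
    intro m hm
    apply hstrict m
    · rintro rfl
      rw [hwi] at hm
      exact lt_irrefl _ hm
    · rintro rfl
      rw [hwj] at hm
      exact lt_irrefl _ hm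
    · rintro rfl
      exact lt_asymm hm hwk)
  have hlk : l ≠ k := by
    rintro rfl
    exact lt_asymm hl hwk
  have hli : l ≠ i := by
    rintro rfl
    rw [hwi] at hl
    exact lt_irrefl _ hl
  have hlj : l ≠ j := by
    rintro rfl
    rw [hwj] at hl
    exact lt_irrefl _ hl
  refine ⟨l, hlk, hij, hlj.symm, hli.symm, V + t • w, h1, h3, ?_, ?_, h4⟩
  · rw [br_add_left, br_smul_left, hi, hwi]; ring
  · rw [br_add_left, br_smul_left, hj, hwj]; ring

/-- A7e -/
theorem edge : EdgeStmt := by
  intro G n e O hG hC i j hij hg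
  have ki : (0 : ℝ) < bz G (e i) (e i) := by exact_mod_cast (hC.root i).pos
  have kj : (0 : ℝ) < bz G (e j) (e j) := by exact_mod_cast (hC.root j).pos
  have hg' : (0 : ℝ) < ((g2 G (e i) (e j) : ℤ) : ℝ) := by exact_mod_cast hg
  unfold g2 at hg'
  push_cast at hg'
  have hobt : ∀ a b, a ≠ b → ((bz G (e a) (e b) : ℤ) : ℝ) ≤ 0 := fun a b hab => by
    exact_mod_cast hC.obt a b hab
  have haij := hobt i j hij
  have hOi := hC.neg i
  have hOj := hC.neg j
  set A : ℝ := ((bz G (e i) (e i) : ℤ) : ℝ) with hA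
  set B : ℝ := ((bz G (e j) (e j) : ℤ) : ℝ) with hB
  set a : ℝ := ((bz G (e i) (e j) : ℤ) : ℝ) with ha
  set p : ℝ := br G O (up (e i)) with hp
  set q : ℝ := br G O (up (e j)) with hq
  have hD : 0 < A * B - a ^ 2 := hg'
  have hD' : A * B - a ^ 2 ≠ 0 := hD.ne'
  -- coefficients of the projection
  set α : ℝ := (B * p - a * q) / (A * B - a ^ 2) with hα
  set β : ℝ := (A * q - a * p) / (A * B - a ^ 2) with hβ
  have hα0 : α < 0 := by
    apply div_neg_of_neg_of_pos _ hD
    nlinarith [mul_nonneg (neg_nonneg.2 haij) (neg_nonneg.2 hOj.le), mul_pos kj (neg_pos.2 hOi)]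
  have hβ0 : β < 0 := by
    apply div_neg_of_neg_of_pos _ hD
    nlinarith [mul_nonneg (neg_nonneg.2 haij) (neg_nonneg.2 hOi.le), mul_pos ki (neg_pos.2 hOj)]
  let V : R4 := O - α • up (e i) - β • up (e j)
  have hbr : ∀ x, br G V x = br G O x - α * br G (up (e i)) x - β * br G (up (e j)) x := by
    intro x
    simp only [V, br_sub_left, br_smul_left]
  have hVi : br G V (up (e i)) = 0 := by
    have h1 : α * A + β * a = p := by
      rw [hα, hβ, div_mul_eq_mul_div, div_mul_eq_mul_div, ← add_div, div_eq_iff hD']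
      ring
    rw [hbr, br_up, br_up, bz_comm hG.symm (e j) (e i), ← hA, ← ha, ← hp]
    linarith
  have hVj : br G V (up (e j)) = 0 := by
    have h1 : α * a + β * B = q := by
      rw [hα, hβ, div_mul_eq_mul_div, div_mul_eq_mul_div, ← add_div, div_eq_iff hD']
      ring
    rw [hbr, br_up, br_up, ← hB, ← ha, ← hq]
    linarith
  have hneg : ∀ m, m ≠ i → m ≠ j → br G V (up (e m)) < 0 := by
    intro m hmi hmj
    rw [hbr, br_up, br_up]
    have h1 := hobt i m (Ne.symm hmi)
    have h2 := hobt j m (Ne.symm hmj)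
    have h3 := hC.neg m
    nlinarith [mul_nonneg (neg_nonneg.2 hα0.le) (neg_nonneg.2 h1),
      mul_nonneg (neg_nonneg.2 hβ0.le) (neg_nonneg.2 h2)]
  have hK : ∀ m, br G V (up (e m)) ≤ 0 := by
    intro m
    by_cases hmi : m = i
    · rw [hmi, hVi]
    · by_cases hmj : m = j
      · rw [hmj, hVj]
      · exact (hneg m hmi hmj).le
  have hV : V ≠ 0 := by
    intro h0
    have h1 : br G V O = 0 := by rw [h0, br_zero_left]
    rw [hbr, br_comm hG.symm (up (e i)) O, br_comm hG.symm (up (e j)) O, ← hp, ← hq] at h1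
    have h2 := hC.Oneg
    nlinarith [mul_pos (neg_pos.2 hα0) (neg_pos.2 hOi), mul_pos (neg_pos.2 hβ0) (neg_pos.2 hOj)]
  obtain ⟨w, hw, hwA⟩ := sol (G := G) (ι := Fin 3) (by simp) ![up (e i), up (e j), O]
  have hwi : br G w (up (e i)) = 0 := hwA 0
  have hwj : br G w (up (e j)) = 0 := hwA 1
  have hwO : br G w O = 0 := hwA 2
  have dir : ∀ w : R4, w ≠ 0 → br G w (up (e i)) = 0 → br G w (up (e j)) = 0 → br G w O = 0 →
      ∃ k, 0 < br G w (up (e k)) ∧ IsV G e i j k := by
    intro w hw hwi hwj hwO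
    obtain ⟨l, t, ht, hl, h1, h3, h4⟩ := leave hG hC hV hK hw hwO (by
      intro m hm
      apply hneg m
      · rintro rfl
        rw [hwi] at hm
        exact lt_irrefl _ hm
      · rintro rfl
        rw [hwj] at hm
        exact lt_irrefl _ hm)
    have hli : l ≠ i := by
      rintro rfl
      rw [hwi] at hl
      exact lt_irrefl _ hl
    have hlj : l ≠ j := by
      rintro rfl
      rw [hwj] at hl
      exact lt_irrefl _ hl
    refine ⟨l, hl, hij, hlj.symm, hli.symm, V + t • w, h1, h3, ?_, ?_, h4⟩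
    · rw [br_add_left, br_smul_left, hVi, hwi]; ring
    · rw [br_add_left, br_smul_left, hVj, hwj]; ring
  obtain ⟨k, hk, hk2⟩ := dir w hw hwi hwj hwO
  obtain ⟨l, hl, hl2⟩ := dir (-w) (neg_ne_zero.2 hw) (by rw [br_neg_left, hwi, neg_zero])
    (by rw [br_neg_left, hwj, neg_zero]) (by rw [br_neg_left, hwO, neg_zero])
  refine ⟨k, l, ?_, hk2, hl2⟩
  rintro rfl
  rw [br_neg_left] at hl
  linarith

end cham

end Pool.Agent.Refl.H51
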