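import Pool.Agent.Helper23_Refl.StmtA

/-!
# Lorentz geometry lemmas for the modules EDGE1, EDGE2 (MP_c70e36_gt)
-/

set_option autoImplicit false

namespace Pool.Agent.Refl.H51

open Matrix

section basic
variable (G : M4)

lemma br_add_left (x y z : R4) : br G (x + y) z = br G x z + br G y z := by
  simp only [br, Fin.sum_univ_four, Pi.add_apply]; ring

lemma br_add_right (x y z : R4) : br G z (x + y) = br G z x + br G z y := by
  simp only [br, Fin.sum_univ_four, Pi.add_apply]; ring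

lemma br_smul_left (t : ℝ) (x y : R4) : br G (t • x) y = t * br G x y := by
  simp only [br, Fin.sum_univ_four, Pi.smul_apply, smul_eq_mul]; ring

lemma br_smul_right (t : ℝ) (x y : R4) : br G x (t • y) = t * br G x y := by
  simp only [br, Fin.sum_univ_four, Pi.smul_apply, smul_eq_mul]; ring

lemma br_zero_left (y : R4) : br G 0 y = 0 := by simp [br]

lemma br_zero_right (y : R4) : br G y 0 = 0 := by simp [br]

lemma br_neg_left (x y : R4) : br G (-x) y = - br G x y := by
  simp only [br, Fin.sum_univ_four, Pi.neg_apply]; ring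

lemma br_neg_right (x y : R4) : br G x (-y) = - br G x y := by
  simp only [br, Fin.sum_univ_four, Pi.neg_apply]; ring

lemma br_sub_left (x y z : R4) : br G (x - y) z = br G x z - br G y z := by
  rw [sub_eq_add_neg, br_add_left, br_neg_left, sub_eq_add_neg]

lemma br_sub_right (x y z : R4) : br G z (x - y) = br G z x - br G z y := by
  rw [sub_eq_add_neg, br_add_right, br_neg_right, sub_eq_add_neg]

lemma br_sum_left {ι : Type} (s : Finset ι) (f : ι → R4) (y : R4) :
    br G (∑ a ∈ s, f a) y = ∑ a ∈ s, br G (f a) y := by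
  classical
  induction s using Finset.induction_on with
  | empty => simp [br_zero_left]
  | insert a s ha ih => rw [Finset.sum_insert ha, Finset.sum_insert ha, br_add_left, ih]

lemma br_sum_right {ι : Type} (s : Finset ι) (f : ι → R4) (y : R4) :
    br G y (∑ a ∈ s, f a) = ∑ a ∈ s, br G y (f a) := by
  classical
  induction s using Finset.induction_on with
  | empty => simp [br_zero_right]
  | insert a s ha ih => rw [Finset.sum_insert ha, Finset.sum_insert ha, br_add_right, ih]

lemma br_up (a b : Z4) : br G (up a) (up b) = (bz G a b : ℝ) := by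
  simp only [br, bz, up]; push_cast; rfl

variable {G}

lemma G_symm (h : G.transpose = G) (i j : Fin 4) : G i j = G j i := by
  conv_lhs => rw [← h]
  rfl

lemma br_comm (h : G.transpose = G) (x y : R4) : br G x y = br G y x := by
  unfold br
  rw [Finset.sum_comm]
  refine Finset.sum_congr rfl fun i _ => Finset.sum_congr rfl fun j _ => ?_
  rw [G_symm h j i]
  ring

lemma bz_comm (h : G.transpose = G) (x y : Z4) : bz G x y = bz G y x := by
  unfold bz
  rw [Finset.sum_comm]
  refine Finset.sum_congr rfl fun i _ => Finset.sum_congr rfl fun j _ => ?_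
  rw [G_symm h j i]
  ring

lemma br_eq (x y : R4) : br G x y = x ⬝ᵥ ((G.map (Int.cast : ℤ → ℝ)) *ᵥ y) := by
  simp only [br, dotProduct, mulVec, Fin.sum_univ_four, Matrix.map_apply]
  ring

/-- Lorentz coordinates -/
lemma lor (h : Sig31 G) : ∃ f : R4 → R4, (∀ x, f x = 0 → x = 0) ∧ (∀ u, ∃ x, f x = u) ∧
    ∀ x y, br G x y = f x 0 * f y 0 + f x 1 * f y 1 + f x 2 * f y 2 - f x 3 * f y 3 := by
  obtain ⟨P, hP, h⟩ := h
  have h1 : P * P⁻¹ = 1 := Matrix.mul_nonsing_inv P hP
  have h2 : P⁻¹ * P = 1 := Matrix.nonsing_inv_mul P hP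
  have key : ∀ u v : R4, br G (P *ᵥ u) (P *ᵥ v) =
      u 0 * v 0 + u 1 * v 1 + u 2 * v 2 - u 3 * v 3 := by
    intro u v
    have h3 : br G (P *ᵥ u) (P *ᵥ v) =
        u ⬝ᵥ ((P.transpose * G.map (Int.cast : ℤ → ℝ) * P) *ᵥ v) := by
      rw [br_eq, ← Matrix.mulVec_mulVec, ← Matrix.mulVec_mulVec]
      rw [Matrix.dotProduct_mulVec u (Pᵀ), Matrix.vecMul_transpose]
    rw [h3, h]
    simp [dotProduct, Fin.sum_univ_four, Matrix.mulVec_diagonal]
    ring
  refine ⟨fun x => P⁻¹ *ᵥ x, ?_, ?_, ?_⟩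
  · intro x hx
    have : P *ᵥ (P⁻¹ *ᵥ x) = x := by rw [Matrix.mulVec_mulVec, h1, Matrix.one_mulVec]
    have hx' : P⁻¹ *ᵥ x = 0 := hx
    rw [← this, hx', Matrix.mulVec_zero]
  · intro u
    refine ⟨P *ᵥ u, ?_⟩
    change P⁻¹ *ᵥ (P *ᵥ u) = u
    rw [Matrix.mulVec_mulVec, h2, Matrix.one_mulVec]
  · intro x y
    have e1 : P *ᵥ (P⁻¹ *ᵥ x) = x := by rw [Matrix.mulVec_mulVec, h1, Matrix.one_mulVec]
    have e2 : P *ᵥ (P⁻¹ *ᵥ y) = y := by rw [Matrix.mulVec_mulVec, h1, Matrix.one_mulVec]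
    have := key (P⁻¹ *ᵥ x) (P⁻¹ *ᵥ y)
    rw [e1, e2] at this
    exact this

/-- vectors orthogonal to a timelike vector are spacelike -/
lemma pos (h : Sig31 G) {O y : R4} (hO : br G O O < 0) (h0 : br G y O = 0) (hy : y ≠ 0) :
    0 < br G y y := by
  obtain ⟨f, f0, -, hf⟩ := lor h
  have hu : f y ≠ 0 := fun h => hy (f0 y h)
  rw [hf] at hO h0 ⊢
  set u := f y
  set o := f O
  by_contra hneg
  rw [not_lt] at hneg
  have hcs : (u 0 * o 0 + u 1 * o 1 + u 2 * o 2) ^ 2 ≤
      (u 0 ^ 2 + u 1 ^ 2 + u 2 ^ 2) * (o 0 ^ 2 + o 1 ^ 2 + o 2 ^ 2) := by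
    nlinarith [sq_nonneg (u 0 * o 1 - u 1 * o 0), sq_nonneg (u 0 * o 2 - u 2 * o 0),
      sq_nonneg (u 1 * o 2 - u 2 * o 1)]
  have h3 : u 0 * o 0 + u 1 * o 1 + u 2 * o 2 = u 3 * o 3 := by linarith
  rw [h3] at hcs
  by_cases h4 : u 3 = 0
  · have a0 : u 0 = 0 := by nlinarith [sq_nonneg (u 0), sq_nonneg (u 1), sq_nonneg (u 2)]
    have a1 : u 1 = 0 := by nlinarith [sq_nonneg (u 0), sq_nonneg (u 1), sq_nonneg (u 2)]
    have a2 : u 2 = 0 := by nlinarith [sq_nonneg (u 0), sq_nonneg (u 1), sq_nonneg (u 2)]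
    apply hu
    funext i
    fin_cases i
    · exact a0
    · exact a1
    · exact a2
    · exact h4
  · have h5 : 0 < u 3 ^ 2 := by positivity
    have h6 : (u 0 ^ 2 + u 1 ^ 2 + u 2 ^ 2) * (o 0 ^ 2 + o 1 ^ 2 + o 2 ^ 2) ≤
        u 3 ^ 2 * (o 0 ^ 2 + o 1 ^ 2 + o 2 ^ 2) :=
      mul_le_mul_of_nonneg_right (by nlinarith) (by positivity)
    have h7 : u 3 ^ 2 * (o 0 ^ 2 + o 1 ^ 2 + o 2 ^ 2) < u 3 ^ 2 * o 3 ^ 2 :=
      mul_lt_mul_of_pos_left (by nlinarith) h5
    nlinarith

lemma nondeg (h : Sig31 G) {x : R4} (hx : ∀ y, br G x y = 0) : x = 0 := by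
  obtain ⟨f, f0, fs, hf⟩ := lor h
  obtain ⟨y, hy⟩ := fs ![f x 0, f x 1, f x 2, - f x 3]
  have h1 := hx y
  rw [hf, hy] at h1
  simp at h1
  apply f0
  funext i
  fin_cases i
  · simp; nlinarith [sq_nonneg (f x 0), sq_nonneg (f x 1), sq_nonneg (f x 2), sq_nonneg (f x 3)]
  · simp; nlinarith [sq_nonneg (f x 0), sq_nonneg (f x 1), sq_nonneg (f x 2), sq_nonneg (f x 3)]
  · simp; nlinarith [sq_nonneg (f x 0), sq_nonneg (f x 1), sq_nonneg (f x 2), sq_nonneg (f x 3)]
  · simp; nlinarith [sq_nonneg (f x 0), sq_nonneg (f x 1), sq_nonneg (f x 2), sq_nonneg (f x 3)]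

/-- four vectors orthogonal to `V` are dependent -/
lemma dep (h : Sig31 G) {V : R4} (hV : V ≠ 0) (A : Fin 4 → R4) (hA : ∀ a, br G V (A a) = 0) :
    ∃ c : Fin 4 → ℝ, c ≠ 0 ∧ ∑ a, c a • A a = 0 := by
  let g : Fin 4 → ℝ := fun j => ∑ i, V i * (G i j : ℝ)
  have hg : ∀ y : R4, br G V y = ∑ j, y j * g j := by
    intro y
    simp only [br, g, Fin.sum_univ_four]
    ring
  have hg0 : g ≠ 0 := by
    intro h0
    apply hV
    apply nondeg h
    intro y
    rw [hg, h0]
    simp
  have h1 : (Matrix.of A).mulVec g = 0 := by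
    funext a
    have := hA a
    rw [hg] at this
    exact this
  have h2 : (Matrix.of A).det = 0 := Matrix.exists_mulVec_eq_zero_iff.1 ⟨g, hg0, h1⟩
  obtain ⟨c, hc, hc2⟩ := Matrix.exists_vecMul_eq_zero_iff.2 h2
  refine ⟨c, hc, ?_⟩
  rw [Matrix.vecMul_eq_sum] at hc2
  exact hc2

/-- three linear conditions have a nonzero solution -/
lemma sol {ι : Type} [Fintype ι] (hc : Fintype.card ι < 4) (A : ι → R4) :
    ∃ w : R4, w ≠ 0 ∧ ∀ a, br G w (A a) = 0 := by
  let f : R4 →ₗ[ℝ] (ι → ℝ) :=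
    { toFun := fun w a => br G w (A a)
      map_add' := fun x y => by funext a; exact br_add_left G x y (A a)
      map_smul' := fun t x => by funext a; exact br_smul_left G t x (A a) }
  have h : LinearMap.ker f ≠ ⊥ := by
    apply LinearMap.ker_ne_bot_of_finrank_lt
    simpa using hc
  obtain ⟨w, hw, hw0⟩ := (Submodule.ne_bot_iff _).1 h
  exact ⟨w, hw0, fun a => congrFun (LinearMap.mem_ker.1 hw) a⟩

/-- an obtuse family on one side of `O`, orthogonal to a timelike vector, is independent -/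
lemma ind (hG : Lat G) {ι : Type} [Fintype ι] [DecidableEq ι] (F : ι → R4) {V O : R4}
    (hV : br G V V < 0) (obt : ∀ a b, a ≠ b → br G (F a) (F b) ≤ 0)
    (neg : ∀ a, br G O (F a) < 0) (orth : ∀ a, br G V (F a) = 0) (c : ι → ℝ)
    (hc : ∑ a, c a • F a = 0) : c = 0 := by
  let u : R4 := ∑ a, max (c a) 0 • F a
  let v : R4 := ∑ a, max (-c a) 0 • F a
  have huv : u = v := by
    rw [← sub_eq_zero, ← hc]
    simp only [u, v]
    rw [← Finset.sum_sub_distrib]
    refine Finset.sum_congr rfl fun a _ => ?_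
    rw [← sub_smul]
    congr 1
    rcases le_total (c a) 0 with h | h
    · rw [max_eq_right h, max_eq_left (by linarith)]; ring
    · rw [max_eq_left h, max_eq_right (by linarith)]; ring
  have hq : br G u u ≤ 0 := by
    have h1 : br G u u = br G u v := by rw [← huv]
    rw [h1]
    simp only [u, v]
    rw [br_sum_left]
    refine Finset.sum_nonpos fun a _ => ?_
    rw [br_sum_right]
    refine Finset.sum_nonpos fun b _ => ?_
    rw [br_smul_left, br_smul_right, ← mul_assoc]
    by_cases hab : a = b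
    · subst hab
      have : max (c a) 0 * max (-c a) 0 = 0 := by
        rcases le_total (c a) 0 with h | h
        · rw [max_eq_right h, zero_mul]
        · rw [max_eq_right (a := -c a) (by linarith), mul_zero]
      rw [this, zero_mul]
    · exact mul_nonpos_of_nonneg_of_nonpos
        (mul_nonneg (le_max_right _ _) (le_max_right _ _)) (obt a b hab)
  have huV : br G u V = 0 := by
    rw [br_comm hG.symm]
    simp only [u]
    rw [br_sum_right]
    refine Finset.sum_eq_zero fun a _ => ?_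
    rw [br_smul_right, orth, mul_zero]
  have hu0 : u = 0 := by
    by_contra hne
    exact absurd (pos hG.sig hV huV hne) (not_lt.2 hq)
  have hv0 : v = 0 := by rw [← huv, hu0]
  have key : ∀ (d : ι → ℝ), (∀ a, 0 ≤ d a) → ∑ a, d a • F a = 0 → ∀ a, d a = 0 := by
    intro d hd h a
    have h1 : ∑ a, d a * br G O (F a) = 0 := by
      have h2 : br G O (∑ a, d a • F a) = 0 := by rw [h, br_zero_right]
      rw [br_sum_right] at h2
      rw [← h2]
      exact Finset.sum_congr rfl fun a _ => (br_smul_right G _ _ _).symm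
    have h2 : ∀ a ∈ Finset.univ, d a * br G O (F a) ≤ 0 := fun a _ =>
      mul_nonpos_of_nonneg_of_nonpos (hd a) (neg a).le
    have h3 := (Finset.sum_eq_zero_iff_of_nonpos h2).1 h1 a (Finset.mem_univ _)
    rcases mul_eq_zero.1 h3 with h | h
    · exact h
    · exact absurd h (neg a).ne
  funext a
  have k1 := key (fun a => max (c a) 0) (fun a => le_max_right _ _) hu0 a
  have k2 := key (fun a => max (-c a) 0) (fun a => le_max_right _ _) hv0 a
  have k3 : c a ≤ 0 := by
    have := le_max_left (c a) 0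
    rw [k1] at this
    exact this
  have k4 : -c a ≤ 0 := by
    have := le_max_left (-c a) 0
    rw [k2] at this
    exact this
  simp only [Pi.zero_apply]
  linarith

end basic

end Pool.Agent.Refl.H51
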