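import Pool.Agent.Helper23_Refl.StmtB
import Pool.Agent.Helper51_Refl.Lor

/-!
# Module NN of the squad REFL (MP_c70e36_gt)
-/

set_option autoImplicit false

namespace Pool.Agent.Refl.H51

open Matrix

variable {G : M4}

/-- the product defining `nn`, before `toNat` -/
lemma nn_spec (hG : Lat G) {a b : Z4} (ha : IsRoot G a) (hb : IsRoot G b) :
    ∃ p q : ℤ, p * bz G a a = 2 * bz G a b ∧ q * bz G b b = 2 * bz G a b ∧
      (nn G a b : ℤ) = p * q ∧ 0 ≤ p * q := by
  have hA := ha.pos
  have hB := hb.pos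
  have d1 : bz G a a ∣ 2 * bz G a b := by
    have := ha.dvd b
    rwa [bz_comm hG.symm b a] at this
  have d2 : bz G b b ∣ 2 * bz G a b := hb.dvd a
  have e1 : (2 * bz G a b) / bz G a a * bz G a a = 2 * bz G a b := Int.ediv_mul_cancel d1
  have e2 : (2 * bz G a b) / bz G b b * bz G b b = 2 * bz G a b := Int.ediv_mul_cancel d2
  set p := (2 * bz G a b) / bz G a a with hp
  set q := (2 * bz G a b) / bz G b b with hq
  have h0 : 0 ≤ p * q := by
    have h1 : p * q * (bz G a a * bz G b b) = (2 * bz G a b) ^ 2 := by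
      calc p * q * (bz G a a * bz G b b) = (p * bz G a a) * (q * bz G b b) := by ring
        _ = (2 * bz G a b) ^ 2 := by rw [e1, e2]; ring
    have h2 : 0 ≤ p * q * (bz G a a * bz G b b) := by rw [h1]; positivity
    exact nonneg_of_mul_nonneg_left h2 (mul_pos hA hB)
  refine ⟨p, q, e1, e2, ?_, h0⟩
  unfold nn
  rw [← hp, ← hq]
  exact Int.toNat_of_nonneg h0

lemma nn_mul (hG : Lat G) {a b : Z4} (ha : IsRoot G a) (hb : IsRoot G b) :
    (nn G a b : ℤ) * (bz G a a * bz G b b) = 4 * bz G a b ^ 2 := by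
  obtain ⟨p, q, e1, e2, e3, -⟩ := nn_spec hG ha hb
  rw [e3]
  calc p * q * (bz G a a * bz G b b) = (p * bz G a a) * (q * bz G b b) := by ring
    _ = 4 * bz G a b ^ 2 := by rw [e1, e2]; ring

lemma bz_sub_smul (hG : Lat G) (a b : Z4) (k m : ℤ) :
    bz G (k • a - m • b) (k • a - m • b) =
      k ^ 2 * bz G a a - 2 * k * m * bz G a b + m ^ 2 * bz G b b := by
  have h : bz G (k • a - m • b) (k • a - m • b) =
      k ^ 2 * bz G a a - k * m * bz G a b - k * m * bz G b a + m ^ 2 * bz G b b := by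
    simp only [bz, Fin.sum_univ_four, Pi.sub_apply, Pi.smul_apply, smul_eq_mul]
    ring
  rw [h, bz_comm hG.symm b a]
  ring

lemma eq_of_smul {a b : Z4} (ha : Prim4 a) (hb : Prim4 b) {k m : ℤ} (hk : k ≠ 0)
    (h : ∀ i, k * a i = m * b i) : a = b ∨ a = -b := by
  have hg : 0 < Int.gcd k m := Int.gcd_pos_of_ne_zero_left _ hk
  obtain ⟨k', m', h1, h2, h3⟩ := Int.exists_gcd_one hg
  have hg' : (Int.gcd k m : ℤ) ≠ 0 := by exact_mod_cast hg.ne'
  have h4 : ∀ i, k' * a i = m' * b i := by
    intro i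
    have h5 := h i
    apply mul_left_cancel₀ hg'
    calc (Int.gcd k m : ℤ) * (k' * a i) = (k' * (Int.gcd k m : ℤ)) * a i := by ring
      _ = k * a i := by rw [← h2]
      _ = m * b i := h5
      _ = (m' * (Int.gcd k m : ℤ)) * b i := by rw [← h3]
      _ = (Int.gcd k m : ℤ) * (m' * b i) := by ring
  have hcop : IsCoprime k' m' := Int.isCoprime_iff_gcd_eq_one.2 h1
  have uk : IsUnit k' := hb k' fun i => by
    have : k' ∣ m' * b i := ⟨a i, (h4 i).symm⟩
    exact hcop.dvd_of_dvd_mul_left this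
  have um : IsUnit m' := ha m' fun i => by
    have : m' ∣ k' * a i := ⟨b i, h4 i⟩
    exact hcop.symm.dvd_of_dvd_mul_left this
  rcases Int.isUnit_iff.1 uk with hk1 | hk1 <;> rcases Int.isUnit_iff.1 um with hm1 | hm1
  · left; funext i; have := h4 i; rw [hk1, hm1] at this; linarith
  · right; funext i; have := h4 i; rw [hk1, hm1] at this; simp; linarith
  · right; funext i; have := h4 i; rw [hk1, hm1] at this; simp; linarith
  · left; funext i; have := h4 i; rw [hk1, hm1] at this; linarith

theorem nn_stmt : NNStmt := by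
  intro G a b hG ha hb
  have hA := ha.pos
  have hB := hb.pos
  have hmul := nn_mul hG ha hb
  refine ⟨hmul, ?_, ?_, ?_⟩
  · intro hne hne' h4
    rw [h4] at hmul
    push_cast at hmul
    have h1 : bz G (bz G b b • a - bz G a b • b) (bz G b b • a - bz G a b • b) = 0 := by
      rw [bz_sub_smul hG]
      have h2 : bz G a a * bz G b b = bz G a b ^ 2 := by linarith
      calc bz G b b ^ 2 * bz G a a - 2 * bz G b b * bz G a b * bz G a b +
            bz G a b ^ 2 * bz G b b
          = bz G b b * (bz G a a * bz G b b) - bz G b b * bz G a b ^ 2 := by ring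
        _ = 0 := by rw [h2]; ring
    have h3 := hG.anis _ h1
    rcases eq_of_smul (m := bz G a b) ha.prim hb.prim hB.ne' (fun i => by
      have h5 := congrFun h3 i
      simp only [Pi.sub_apply, Pi.smul_apply, smul_eq_mul, Pi.zero_apply] at h5
      linarith) with h | h
    · exact hne h
    · exact hne' h
  · intro hab
    have rA : (0 : ℝ) < bz G a a := by exact_mod_cast hA
    have rB : (0 : ℝ) < bz G b b := by exact_mod_cast hB
    have rab : (bz G a b : ℝ) ≤ 0 := by exact_mod_cast hab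
    have rmul : (nn G a b : ℝ) * ((bz G a a : ℝ) * bz G b b) = 4 * (bz G a b : ℝ) ^ 2 := by
      exact_mod_cast hmul
    unfold gR gN
    rw [← Real.sqrt_mul rA.le]
    have hs : 0 < Real.sqrt ((bz G a a : ℝ) * bz G b b) := Real.sqrt_pos.2 (mul_pos rA rB)
    rw [div_eq_div_iff hs.ne' two_ne_zero, ← Real.sqrt_mul (by positivity), rmul]
    have : (4 : ℝ) * (bz G a b : ℝ) ^ 2 = (-(bz G a b : ℝ) * 2) ^ 2 := by ring
    rw [this, Real.sqrt_sq (by linarith)]
  · intro c hc
    have hD := hc.pos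
    obtain ⟨p, q, e1, e2, e3, -⟩ := nn_spec hG ha hb
    obtain ⟨p', q', f1, f2, f3, -⟩ := nn_spec hG hb hc
    obtain ⟨p'', q'', g1, g2, g3, -⟩ := nn_spec hG ha hc
    -- `p = 2ab/aa, q = 2ab/bb, p' = 2bc/bb, q' = 2bc/cc, p'' = 2ac/aa, q'' = 2ac/cc`
    have key : p * p' * q'' = q * q' * p'' := by
      have h1 : (p * p' * q'') * (bz G a a * bz G b b * bz G c c) =
          (q * q' * p'') * (bz G a a * bz G b b * bz G c c) := by
        calc (p * p' * q'') * (bz G a a * bz G b b * bz G c c)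
            = (p * bz G a a) * (p' * bz G b b) * (q'' * bz G c c) := by ring
          _ = (q * bz G b b) * (q' * bz G c c) * (p'' * bz G a a) := by
              rw [e1, e2, f1, f2, g1, g2]
          _ = _ := by ring
      exact mul_right_cancel₀ (mul_pos (mul_pos hA hB) hD).ne' h1
    refine ⟨(p * p' * q'').natAbs, ?_⟩
    have h2 : ((nn G a b * nn G b c * nn G a c : ℕ) : ℤ) =
        (((p * p' * q'').natAbs * (p * p' * q'').natAbs : ℕ) : ℤ) := by
      push_cast
      rw [e3, f3, g3]
      rw [abs_mul_abs_self]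
      calc p * q * (p' * q') * (p'' * q'') = (p * p' * q'') * (q * q' * p'') := by ring
        _ = _ := by rw [← key]
    exact_mod_cast h2

end Pool.Agent.Refl.H51
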