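import Pool.Agent.Helper51_Refl.Idx

/-!
# CLS: the sublattices between `p ℤ⁴` and `ℤ⁴`
-/

namespace Pool.Agent.Refl.H51I

open Matrix Pool.Agent.Refl

/-- reduction -/
def rd (p : ℕ) (x : Z4) : Fin 4 → ZMod p := fun i => (x i : ZMod p)

theorem rd_eq {p : ℕ} {x y : Z4} : rd p x = rd p y ↔ Cg p x y := by
  constructor
  · intro h i
    have := congrFun h i
    simp only [rd] at this
    rw [ZMod.intCast_eq_intCast_iff_dvd_sub] at this
    exact (dvd_sub_comm).1 this
  · intro h
    funext i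
    simp only [rd]
    rw [ZMod.intCast_eq_intCast_iff_dvd_sub]
    exact (dvd_sub_comm).1 (h i)

theorem rd_add (p : ℕ) (x y : Z4) : rd p (x + y) = rd p x + rd p y := by
  funext i; simp [rd]

theorem rd_smul (p : ℕ) (c : ℤ) (x : Z4) : rd p (c • x) = (c : ZMod p) • rd p x := by
  funext i; simp [rd]

theorem rd_surj (p : ℕ) [NeZero p] (v : Fin 4 → ZMod p) : rd p (fun i => ((v i).val : ℤ)) = v := by
  funext i
  simp [rd]

/-- the reduction of a lattice containing `p ℤ⁴` -/
def redS (p : ℕ) [NeZero p] (X : Submodule ℤ Z4) : Submodule (ZMod p) (Fin 4 → ZMod p) where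
  carrier := {s | ∃ v ∈ X, rd p v = s}
  add_mem' := by
    rintro a b ⟨v, hv, rfl⟩ ⟨w, hw, rfl⟩
    exact ⟨v + w, X.add_mem hv hw, rd_add p v w⟩
  zero_mem' := ⟨0, X.zero_mem, by funext i; simp [rd]⟩
  smul_mem' := by
    rintro c x ⟨v, hv, rfl⟩
    refine ⟨(c.val : ℤ) • v, X.smul_mem _ hv, ?_⟩
    rw [rd_smul]
    simp

theorem mem_redS {p : ℕ} [NeZero p] {X : Submodule ℤ Z4} (hX : ∀ w : Z4, (p : ℤ) • w ∈ X)
    (v : Z4) : rd p v ∈ redS p X ↔ v ∈ X := by
  constructor
  · rintro ⟨w, hw, h⟩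
    obtain ⟨u, rfl⟩ := (cg_iff _ _ _).1 (rd_eq.1 h.symm)
    exact X.add_mem hw (hX u)
  · intro h
    exact ⟨v, h, rfl⟩

/-- normalized vectors over a field -/
theorem lnf {F : Type*} [Field F] (v : Fin 4 → F) (hv : v ≠ 0) : ∃ c : F, c ≠ 0 ∧
    ((c • v) 0 = 1 ∨ ((c • v) 0 = 0 ∧ (c • v) 1 = 1) ∨
      ((c • v) 0 = 0 ∧ (c • v) 1 = 0 ∧ (c • v) 2 = 1) ∨
      ((c • v) 0 = 0 ∧ (c • v) 1 = 0 ∧ (c • v) 2 = 0 ∧ (c • v) 3 = 1)) := by
  by_cases h0 : v 0 = 0
  · by_cases h1 : v 1 = 0
    · by_cases h2 : v 2 = 0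
      · have h3 : v 3 ≠ 0 := by
          intro h3
          apply hv
          funext i
          fin_cases i <;> simp [h0, h1, h2, h3]
        exact ⟨(v 3)⁻¹, inv_ne_zero h3, Or.inr (Or.inr (Or.inr (by simp [h0, h1, h2, h3])))⟩
      · exact ⟨(v 2)⁻¹, inv_ne_zero h2, Or.inr (Or.inr (Or.inl (by simp [h0, h1, h2])))⟩
    · exact ⟨(v 1)⁻¹, inv_ne_zero h1, Or.inr (Or.inl (by simp [h0, h1]))⟩
  · exact ⟨(v 0)⁻¹, inv_ne_zero h0, Or.inl (by simp [h0])⟩

/-- reduced bases of planes over a field -/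
theorem ech {F : Type*} [Field F] (u v : Fin 4 → F)
    (huv : ∀ a b : F, a • u + b • v = 0 → a = 0 ∧ b = 0) : ∃ a b c d : F, a * d - b * c ≠ 0 ∧
    ∃ i j : Fin 4, i < j ∧ (a • u + b • v) i = 1 ∧ (a • u + b • v) j = 0 ∧
      (c • u + d • v) i = 0 ∧ (c • u + d • v) j = 1 ∧
      (∀ k < i, (a • u + b • v) k = 0) ∧ (∀ k < j, (c • u + d • v) k = 0) := by
  have key : ∀ i j : Fin 4, i < j → u i * v j - u j * v i ≠ 0 →
      (∀ k < i, u k * v i - u i * v k = 0 ∧ u k * v j - u j * v k = 0) →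
      (∀ k, i < k → k < j → u i * v k - u k * v i = 0) →
      ∃ a b c d : F, a * d - b * c ≠ 0 ∧
    ∃ i j : Fin 4, i < j ∧ (a • u + b • v) i = 1 ∧ (a • u + b • v) j = 0 ∧
      (c • u + d • v) i = 0 ∧ (c • u + d • v) j = 1 ∧
      (∀ k < i, (a • u + b • v) k = 0) ∧ (∀ k < j, (c • u + d • v) k = 0) := by
    intro i j hij hm hk hk'
    set m := u i * v j - u j * v i with hmdef
    refine ⟨v j / m, -(u j) / m, -(v i) / m, u i / m, ?_, i, j, hij, ?_, ?_, ?_, ?_, ?_, ?_⟩
    · have : v j / m * (u i / m) - -(u j) / m * (-(v i) / m) = m⁻¹ := by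
        field_simp
        rw [hmdef]
        ring
      rw [this]
      exact inv_ne_zero hm
    · simp only [Pi.add_apply, Pi.smul_apply, smul_eq_mul]
      field_simp
      rw [hmdef]
      ring
    · simp only [Pi.add_apply, Pi.smul_apply, smul_eq_mul]
      field_simp
      ring
    · simp only [Pi.add_apply, Pi.smul_apply, smul_eq_mul]
      field_simp
      ring
    · simp only [Pi.add_apply, Pi.smul_apply, smul_eq_mul]
      field_simp
      rw [hmdef]
      ring
    · intro k hki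
      simp only [Pi.add_apply, Pi.smul_apply, smul_eq_mul]
      field_simp
      linear_combination (hk k hki).2
    · intro k hkj
      simp only [Pi.add_apply, Pi.smul_apply, smul_eq_mul]
      field_simp
      rcases lt_trichotomy k i with h | h | h
      · linear_combination -(hk k h).1
      · subst h; ring
      · linear_combination hk' k h hkj
  by_contra hcon
  have h01 : u 0 * v 1 - u 1 * v 0 = 0 := by
    by_contra h
    exact hcon (key 0 1 (by decide) h (fun k hk => absurd hk (by omega))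
      (fun k hk hk' => absurd hk' (by omega)))
  have h02 : u 0 * v 2 - u 2 * v 0 = 0 := by
    by_contra h
    refine hcon (key 0 2 (by decide) h (fun k hk => absurd hk (by omega)) (fun k hk hk' => ?_))
    obtain rfl : k = 1 := by omega
    exact h01
  have h03 : u 0 * v 3 - u 3 * v 0 = 0 := by
    by_contra h
    refine hcon (key 0 3 (by decide) h (fun k hk => absurd hk (by omega)) (fun k hk hk' => ?_))
    obtain rfl | rfl : k = 1 ∨ k = 2 := by omega
    · exact h01
    · exact h02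
  have h12 : u 1 * v 2 - u 2 * v 1 = 0 := by
    by_contra h
    refine hcon (key 1 2 (by decide) h (fun k hk => ?_) (fun k hk hk' => absurd hk' (by omega)))
    obtain rfl : k = 0 := by omega
    exact ⟨h01, h02⟩
  have h13 : u 1 * v 3 - u 3 * v 1 = 0 := by
    by_contra h
    refine hcon (key 1 3 (by decide) h (fun k hk => ?_) (fun k hk hk' => ?_))
    · obtain rfl : k = 0 := by omega
      exact ⟨h01, h03⟩
    · obtain rfl : k = 2 := by omega
      exact h12
  have h23 : u 2 * v 3 - u 3 * v 2 = 0 := by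
    by_contra h
    refine hcon (key 2 3 (by decide) h (fun k hk => ?_) (fun k hk hk' => absurd hk' (by omega)))
    obtain rfl | rfl : k = 0 ∨ k = 1 := by omega
    · exact ⟨h02, h03⟩
    · exact ⟨h12, h13⟩
  have hall : ∀ i, u i = 0 := by
    intro i
    have := huv (v i) (-(u i)) (by
      funext k
      simp only [Pi.add_apply, Pi.smul_apply, smul_eq_mul, Pi.zero_apply]
      fin_cases i <;> fin_cases k <;> simp only [Fin.zero_eta, Fin.mk_one, Fin.reduceFinMk] <;>
        first
        | ring1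
        | linear_combination h01
        | linear_combination -h01
        | linear_combination h02
        | linear_combination -h02
        | linear_combination h03
        | linear_combination -h03
        | linear_combination h12
        | linear_combination -h12
        | linear_combination h13
        | linear_combination -h13
        | linear_combination h23
        | linear_combination -h23)
    exact neg_eq_zero.1 this.2
  have h1 := (huv 1 0 (by funext k; simp [hall k])).1
  exact one_ne_zero h1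

/-- lift of a vector -/
def lf (p : ℕ) (u : Fin 4 → ZMod p) : Z4 := fun i => ((u i).val : ℤ)

theorem rd_lf (p : ℕ) [NeZero p] (u : Fin 4 → ZMod p) : rd p (lf p u) = u := rd_surj p u

theorem lf_form (p : ℕ) [Fact p.Prime] (u : Fin 4 → ZMod p)
    (h : u 0 = 1 ∨ (u 0 = 0 ∧ u 1 = 1) ∨ (u 0 = 0 ∧ u 1 = 0 ∧ u 2 = 1) ∨
      (u 0 = 0 ∧ u 1 = 0 ∧ u 2 = 0 ∧ u 3 = 1)) : LnForm p (lf p u) := by
  have hp : 0 < p := (Fact.out : p.Prime).pos
  have hp1 : 1 < p := (Fact.out : p.Prime).one_lt
  have hv1 : (1 : ZMod p).val = 1 := by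
    have : Fact (1 < p) := ⟨hp1⟩
    exact ZMod.val_one p
  have hlt : ∀ i, (u i).val < p := fun i => ZMod.val_lt _
  rcases h with h | ⟨h0, h⟩ | ⟨h0, h1, h⟩ | ⟨h0, h1, h2, h⟩
  · refine ⟨(u 1).val, (u 2).val, (u 3).val, hlt _, hlt _, hlt _, Or.inl ?_⟩
    funext i
    fin_cases i <;> simp [lf, nz, h, hv1]
  · refine ⟨(u 2).val, (u 3).val, 0, hlt _, hlt _, hp, Or.inr (Or.inl ?_)⟩
    funext i
    fin_cases i <;> simp [lf, nz, h0, h, hv1]
  · refine ⟨(u 3).val, 0, 0, hlt _, hp, hp, Or.inr (Or.inr (Or.inl ?_))⟩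
    funext i
    fin_cases i <;> simp [lf, nz, h0, h1, h, hv1]
  · refine ⟨0, 0, 0, hp, hp, hp, Or.inr (Or.inr (Or.inr ?_))⟩
    funext i
    fin_cases i <;> simp [lf, nz, h0, h1, h2, h, hv1]

theorem lf_form2 (p : ℕ) [Fact p.Prime] (u v : Fin 4 → ZMod p) (i j : Fin 4) (hij : i < j)
    (h1 : u i = 1) (h2 : u j = 0) (h3 : v i = 0) (h4 : v j = 1) (h5 : ∀ k < i, u k = 0)
    (h6 : ∀ k < j, v k = 0) : PlForm p (lf p u) (lf p v) := by
  have hp : 0 < p := (Fact.out : p.Prime).pos
  have hp1 : 1 < p := (Fact.out : p.Prime).one_lt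
  have hv1 : (1 : ZMod p).val = 1 := by
    have : Fact (1 < p) := ⟨hp1⟩
    exact ZMod.val_one p
  have hlt : ∀ i, (u i).val < p := fun i => ZMod.val_lt _
  have hlt' : ∀ i, (v i).val < p := fun i => ZMod.val_lt _
  have hc : (i = 0 ∧ j = 1) ∨ (i = 0 ∧ j = 2) ∨ (i = 0 ∧ j = 3) ∨ (i = 1 ∧ j = 2) ∨
      (i = 1 ∧ j = 3) ∨ (i = 2 ∧ j = 3) := by
    revert hij
    fin_cases i <;> fin_cases j <;> decide
  rcases hc with ⟨rfl, rfl⟩ | ⟨rfl, rfl⟩ | ⟨rfl, rfl⟩ | ⟨rfl, rfl⟩ | ⟨rfl, rfl⟩ | ⟨rfl, rfl⟩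
  · refine ⟨(u 2).val, (u 3).val, (v 2).val, (v 3).val, hlt _, hlt _, hlt' _, hlt' _,
      Or.inl ⟨?_, ?_⟩⟩
    · funext k
      fin_cases k <;> simp [lf, nz, h1, h2, hv1]
    · funext k
      fin_cases k <;> simp [lf, nz, h3, h4, hv1]
  · refine ⟨(u 1).val, (u 3).val, (v 3).val, 0, hlt _, hlt _, hlt' _, hp,
      Or.inr (Or.inl ⟨?_, ?_⟩)⟩
    · funext k
      fin_cases k <;> simp [lf, nz, h1, h2, hv1]
    · have h7 := h6 1 (by decide)
      funext k
      fin_cases k <;> simp [lf, nz, h3, h4, h7, hv1]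
  · refine ⟨(u 1).val, (u 2).val, 0, 0, hlt _, hlt _, hp, hp,
      Or.inr (Or.inr (Or.inl ⟨?_, ?_⟩))⟩
    · funext k
      fin_cases k <;> simp [lf, nz, h1, h2, hv1]
    · have h7 := h6 1 (by decide)
      have h8 := h6 2 (by decide)
      funext k
      fin_cases k <;> simp [lf, nz, h3, h4, h7, h8, hv1]
  · refine ⟨(u 3).val, (v 3).val, 0, 0, hlt _, hlt' _, hp, hp,
      Or.inr (Or.inr (Or.inr (Or.inl ⟨?_, ?_⟩)))⟩
    · have h7 := h5 0 (by decide)
      funext k
      fin_cases k <;> simp [lf, nz, h1, h2, h7, hv1]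
    · have h7 := h6 0 (by decide)
      funext k
      fin_cases k <;> simp [lf, nz, h3, h4, h7, hv1]
  · refine ⟨(u 2).val, 0, 0, 0, hlt _, hp, hp, hp,
      Or.inr (Or.inr (Or.inr (Or.inr (Or.inl ⟨?_, ?_⟩))))⟩
    · have h7 := h5 0 (by decide)
      funext k
      fin_cases k <;> simp [lf, nz, h1, h2, h7, hv1]
    · have h7 := h6 0 (by decide)
      have h8 := h6 2 (by decide)
      funext k
      fin_cases k <;> simp [lf, nz, h3, h4, h7, h8, hv1]
  · refine ⟨0, 0, 0, 0, hp, hp, hp, hp,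
      Or.inr (Or.inr (Or.inr (Or.inr (Or.inr ⟨?_, ?_⟩))))⟩
    · have h7 := h5 0 (by decide)
      have h8 := h5 1 (by decide)
      funext k
      fin_cases k <;> simp [lf, nz, h1, h2, h7, h8, hv1]
    · have h7 := h6 0 (by decide)
      have h8 := h6 1 (by decide)
      funext k
      fin_cases k <;> simp [lf, nz, h3, h4, h7, h8, hv1]

theorem cls : ClsStmt := by
  intro p W W' hp hW hdet hne
  have : Fact p.Prime := ⟨hp⟩
  have : NeZero p := ⟨hp.ne_zero⟩
  set X : Submodule ℤ Z4 := LinearMap.range W.mulVecLin with hXdef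
  have hmem : ∀ x : Z4, x ∈ X ↔ ∃ y, x = W.mulVec y := by
    intro x
    rw [hXdef, LinearMap.mem_range]
    constructor
    · rintro ⟨y, hy⟩
      exact ⟨y, by rw [← hy, Matrix.mulVecLin_apply]⟩
    · rintro ⟨y, hy⟩
      exact ⟨y, by rw [hy, Matrix.mulVecLin_apply]⟩
  have hpX : ∀ w : Z4, (p : ℤ) • w ∈ X := by
    intro w
    rw [hmem]
    refine ⟨W'.mulVec w, ?_⟩
    rw [Matrix.mulVec_mulVec, hW, Matrix.smul_mulVec, Matrix.one_mulVec]
  refine ⟨X, ⟨⟨W', hW⟩, hmem⟩, ?_⟩
  have hSX := mem_redS hpX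
  set S := redS p X with hS
  have hlt : Module.finrank (ZMod p) S < 4 := by
    by_contra hcon
    have h4 : Module.finrank (ZMod p) S = Module.finrank (ZMod p) (Fin 4 → ZMod p) := by
      have := Submodule.finrank_le S
      rw [Module.finrank_fin_fun] at this ⊢
      omega
    have htop := Submodule.eq_top_of_finrank_eq h4
    have hXtop : ∀ x : Z4, x ∈ X := by
      intro x
      rw [← hSX, htop]
      trivial
    obtain ⟨U, hU⟩ := factor (X := X) (W := W) (M := 1) (fun x hx => (hmem x).1 hx)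
      (fun y => hXtop _)
    apply hdet
    have : W.det * U.det = 1 := by rw [← Matrix.det_mul, ← hU, Matrix.det_one]
    exact IsUnit.of_mul_eq_one _ this
  have hpos : 0 < Module.finrank (ZMod p) S := by
    rw [Module.finrank_pos_iff_exists_ne_zero]
    obtain ⟨y, hy⟩ := hne
    refine ⟨⟨rd p (W.mulVec y), (hSX _).2 ((hmem _).2 ⟨y, rfl⟩)⟩, ?_⟩
    intro h
    apply hy
    rw [← rd_eq]
    have h' := congrArg Subtype.val h
    simp only [ZeroMemClass.coe_zero] at h'
    rw [h']
    funext i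
    simp [rd]
  have hcases : Module.finrank (ZMod p) S = 1 ∨ Module.finrank (ZMod p) S = 2 ∨
      Module.finrank (ZMod p) S = 3 := by omega
  rcases hcases with h1 | h2 | h3
  · left
    obtain ⟨v, hv, hvS⟩ := finrank_eq_one_iff'.1 h1
    have hv0 : (v : Fin 4 → ZMod p) ≠ 0 := by
      intro h
      exact hv (Subtype.ext h)
    obtain ⟨c, hc, hform⟩ := lnf (v : Fin 4 → ZMod p) hv0
    refine ⟨lf p (c • (v : Fin 4 → ZMod p)), lf_form p _ hform, ?_⟩
    ext w
    rw [← hSX, mem_sub1]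
    constructor
    · intro hw
      obtain ⟨e, he⟩ := hvS ⟨rd p w, hw⟩
      have he' : e • (v : Fin 4 → ZMod p) = rd p w := congrArg Subtype.val he
      refine ⟨((e * c⁻¹).val : ℤ), ?_⟩
      rw [← rd_eq, rd_smul, rd_lf, ← he', smul_smul]
      congr 1
      simp [hc]
    · rintro ⟨t, ht⟩
      rw [← rd_eq, rd_smul, rd_lf] at ht
      rw [ht]
      exact S.smul_mem _ (S.smul_mem _ v.2)
  · right; right
    let b := Module.finBasisOfFinrankEq (ZMod p) S h2
    set u : Fin 4 → ZMod p := ((b 0 : S) : Fin 4 → ZMod p) with hu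
    set v : Fin 4 → ZMod p := ((b 1 : S) : Fin 4 → ZMod p) with hv
    have huS : u ∈ S := (b 0).2
    have hvS : v ∈ S := (b 1).2
    have hind : ∀ a c : ZMod p, a • u + c • v = 0 → a = 0 ∧ c = 0 := by
      intro a c h
      have hli := Fintype.linearIndependent_iff.1 b.linearIndependent ![a, c] (by
        rw [Fin.sum_univ_two]
        apply Subtype.ext
        simpa using h)
      exact ⟨by simpa using hli 0, by simpa using hli 1⟩
    have hrep : ∀ w ∈ S, ∃ a c : ZMod p, w = a • u + c • v := by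
      intro w hw
      have h := b.sum_repr ⟨w, hw⟩
      rw [Fin.sum_univ_two] at h
      exact ⟨_, _, (congrArg Subtype.val h).symm⟩
    obtain ⟨a, b', c, d, hdet', i, j, hij, e1, e2, e3, e4, e5, e6⟩ := ech u v hind
    refine ⟨lf p (a • u + b' • v), lf p (c • u + d • v), lf_form2 p _ _ i j hij e1 e2 e3 e4 e5 e6,
      ?_⟩
    ext w
    rw [← hSX, mem_sub2]
    constructor
    · intro hw
      obtain ⟨s, t, hst⟩ := hrep _ hw
      refine ⟨(((s * d - t * c) / (a * d - b' * c)).val : ℤ),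
        (((t * a - s * b') / (a * d - b' * c)).val : ℤ), ?_⟩
      have hcv : ∀ z : ZMod p, (((z.val : ℕ) : ℤ) : ZMod p) = z := by
        intro z
        simp
      rw [← rd_eq, rd_add, rd_smul, rd_smul, rd_lf, rd_lf, hst, hcv, hcv]
      funext k
      simp only [Pi.add_apply, Pi.smul_apply, smul_eq_mul]
      have hm1 : (a * d - b' * c) * (a * d - b' * c)⁻¹ = 1 := mul_inv_cancel₀ hdet'
      rw [div_eq_mul_inv, div_eq_mul_inv]
      linear_combination -(s * u k + t * v k) * hm1
    · rintro ⟨s, t, hst⟩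
      rw [← rd_eq, rd_add, rd_smul, rd_smul, rd_lf, rd_lf] at hst
      rw [hst]
      exact S.add_mem (S.smul_mem _ (S.add_mem (S.smul_mem _ huS) (S.smul_mem _ hvS)))
        (S.smul_mem _ (S.add_mem (S.smul_mem _ huS) (S.smul_mem _ hvS)))
  · right; left
    have hSlt : S < ⊤ := by
      rw [lt_top_iff_ne_top]
      intro h
      rw [h, finrank_top, Module.finrank_fin_fun] at h3
      omega
    obtain ⟨f, hf, hSf⟩ := Submodule.exists_le_ker_of_lt_top S hSlt
    have hker : S = LinearMap.ker f := by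
      apply Submodule.eq_of_le_of_finrank_le hSf
      rw [h3]
      have hk := LinearMap.finrank_range_add_finrank_ker f
      rw [Module.finrank_fin_fun] at hk
      have hr : 0 < Module.finrank (ZMod p) (LinearMap.range f) := by
        rw [Module.finrank_pos_iff_exists_ne_zero]
        have : ∃ x, f x ≠ 0 := by
          by_contra hcon
          push Not at hcon
          exact hf (LinearMap.ext hcon)
        obtain ⟨x, hx⟩ := this
        refine ⟨⟨f x, LinearMap.mem_range_self f x⟩, ?_⟩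
        intro h
        exact hx (congrArg Subtype.val h)
      omega
    set y : Fin 4 → ZMod p := fun i => f (Pi.single i 1) with hy
    have hfy : ∀ x, f x = y ⬝ᵥ x := by
      intro x
      rw [LinearMap.pi_apply_eq_sum_univ f x]
      simp only [dotProduct, smul_eq_mul, hy]
      refine Finset.sum_congr rfl fun i _ => ?_
      rw [mul_comm]
      congr 2
      funext j
      simp [Pi.single_apply, eq_comm]
    have hy0 : y ≠ 0 := by
      intro h
      apply hf
      ext x
      simp [hfy, h]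
    obtain ⟨c, hc, hform⟩ := lnf y hy0
    refine ⟨lf p (c • y), lf_form p _ hform, ?_⟩
    ext w
    rw [← hSX, hker, LinearMap.mem_ker, hfy]
    have hm : w ∈ HypX p (lf p (c • y)) ↔ (p : ℤ) ∣ lf p (c • y) ⬝ᵥ w := Iff.rfl
    rw [hm, ← ZMod.intCast_zmod_eq_zero_iff_dvd]
    have hcast : ((lf p (c • y) ⬝ᵥ w : ℤ) : ZMod p) = c * (y ⬝ᵥ rd p w) := by
      simp only [dotProduct, Int.cast_sum, Int.cast_mul, Finset.mul_sum]
      refine Finset.sum_congr rfl fun i _ => ?_
      have := congrFun (rd_lf p (c • y)) i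
      simp only [rd, Pi.smul_apply, smul_eq_mul] at this
      rw [this]
      simp only [rd]
      ring
    rw [hcast]
    constructor
    · intro h
      rw [h, mul_zero]
    · intro h
      exact (mul_eq_zero.1 h).resolve_left hc

end Pool.Agent.Refl.H51I
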