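import Pool.Agent.Helper84_Refl.Base2

/-!
# Module CONV of the squad REFL (MP_c70e36_gt)
A finite family of roots with compact cone implies reflectivity.
-/

set_option autoImplicit false

namespace Pool.Agent.Refl.H51

open Matrix

/-- a reflection in a root separating `y` from `O` decreases the distance to `O` -/
lemma refl_lt {G : M4} (hG : Lat G) {O y : R4} (hO : br G O O < 0) (hy : br G y y < 0)
    (hyO : br G y O < 0) {r : Z4} (hr : IsRoot G r) (hrO : br G O (up r) < 0)
    (h : 0 < br G y (up r)) :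
    |br G (act (reflU G r : M4) y) O| < |br G y O| := by
  have hK := hr.pos_real
  have h1 : br G (act (reflU G r : M4) y) O =
      br G y O - 2 * br G y (up r) * br G (up r) O / br G (up r) (up r) := br_act_reflU hr y O
  have h2 : br G (act (reflU G r : M4) y) y =
      br G y y - 2 * br G y (up r) * br G (up r) y / br G (up r) (up r) := br_act_reflU hr y y
  have h3 : 2 * br G y (up r) * br G (up r) O / br G (up r) (up r) < 0 := by
    apply div_neg_of_neg_of_pos _ hK
    rw [hG.bcomm (up r) O]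
    exact mul_neg_of_pos_of_neg (by linarith) hrO
  have h4 : 0 < 2 * br G y (up r) * br G (up r) y / br G (up r) (up r) := by
    rw [hG.bcomm (up r) y]
    positivity
  have h5 : br G (act (reflU G r : M4) y) (act (reflU G r : M4) y) < 0 := by
    rw [br_OG (reflU_mem_OG hG hr)]
    exact hy
  have h6 : br G O (act (reflU G r : M4) y) < 0 :=
    hG.sheet hy hO.le h5 (by rw [hG.bcomm]; exact hyO) (by rw [h2]; linarith)
  have h7 : br G (act (reflU G r : M4) y) O < 0 := by rw [hG.bcomm]; exact h6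
  rw [abs_of_neg h7, abs_of_neg hyO, h1]
  linarith

theorem conv (hF : FinGrpStmt) : ConvStmt := by
  intro G hG n e O hroot hO hneg ⟨c, hc, hcpt⟩
  have fin : ∀ C : ℝ, {g : M4ˣ | g ∈ OG G ∧ |br G (act (g : M4) O) O| ≤ C}.Finite := by
    intro C
    obtain ⟨c', hc', hlow⟩ := hG.maj_lower hO
    refine (hF G hG O hO (Real.sqrt ((br G O O + 2 * C ^ 2 / (-br G O O)) / c'))).subset ?_
    rintro g ⟨hg, hgC⟩
    refine ⟨hg, fun i => ?_⟩
    have h0 : 0 < -br G O O := by linarith
    have h1 : maj G O (act (g : M4) O) ≤ br G O O + 2 * C ^ 2 / (-br G O O) := by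
      unfold maj
      rw [br_OG hg]
      have : br G (act (g : M4) O) O ^ 2 ≤ C ^ 2 := by
        rw [← sq_abs]
        exact pow_le_pow_left₀ (abs_nonneg _) hgC 2
      gcongr
    have h2 := hlow (act (g : M4) O)
    have h3 : (act (g : M4) O i) ^ 2 ≤ ∑ j, (act (g : M4) O j) ^ 2 :=
      Finset.single_le_sum (f := fun j => (act (g : M4) O j) ^ 2)
        (fun _ _ => sq_nonneg _) (Finset.mem_univ i)
    apply Real.abs_le_sqrt
    rw [le_div_iff₀ hc']
    nlinarith
  set C0 := Real.sqrt (-br G O O / c) with hC0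
  have key : ∀ g ∈ OG G, ∃ w ∈ Or G, |br G (act ((w * g : M4ˣ) : M4) O) O| ≤ C0 := by
    intro g hg
    let T : Set M4ˣ := {h | (h ∈ OG G ∧ |br G (act (h : M4) O) O| ≤ |br G (act (g : M4) O) O|) ∧
      ∃ w ∈ Or G, h = w * g}
    have hT : T.Finite := (fin _).subset fun h hh => hh.1
    have hT0 : T.Nonempty := ⟨g, ⟨hg, le_rfl⟩, 1, one_mem _, (one_mul g).symm⟩
    obtain ⟨h, ⟨⟨hh1, hh2⟩, w, hw, rfl⟩, hmin⟩ :=
      Set.exists_min_image T (fun h : M4ˣ => |br G (act (h : M4) O) O|) hT hT0
    have hmin' : ∀ v ∈ Or G, |br G (act ((w * g : M4ˣ) : M4) O) O| ≤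
        |br G (act ((v * (w * g) : M4ˣ) : M4) O) O| := by
      intro v hv
      by_cases hle : |br G (act ((v * (w * g) : M4ˣ) : M4) O) O| ≤ |br G (act (g : M4) O) O|
      · exact hmin (v * (w * g)) ⟨⟨mul_mem (Or_le_OG G hv) hh1, hle⟩, v * w, mul_mem hv hw, by
          group⟩
      · exact hh2.trans (not_le.1 hle).le
    refine ⟨w, hw, ?_⟩
    set y : R4 := act ((w * g : M4ˣ) : M4) O with hy
    have hyy : br G y y = br G O O := by rw [hy, br_OG hh1]
    have hyO : br G y O ≠ 0 := by
      apply hG.ne_of_nonpos hO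
      · rw [hyy]; exact hO.le
      · intro h0
        rw [h0] at hyy
        simp at hyy
        linarith
    have hact : ∀ v ∈ Or G, |br G y O| ≤ |br G (act (v : M4) y) O| := by
      intro v hv
      have := hmin' v hv
      rwa [Units.val_mul v, act_mul] at this
    -- a representative in the cone
    obtain ⟨x, hxK, hxx, hxO⟩ : ∃ x : R4, (∀ i, br G x (up (e i)) ≤ 0) ∧
        br G x x = br G O O ∧ (br G x O) ^ 2 = (br G y O) ^ 2 := by
      rcases lt_or_gt_of_ne hyO with h | h
      · refine ⟨y, fun i => ?_, hyy, rfl⟩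
        by_contra hcon
        rw [not_le] at hcon
        have h1 := refl_lt hG hO (by rw [hyy]; exact hO) h (hroot i) (hneg i) hcon
        exact absurd (hact _ (reflU_mem_Or hG (hroot i))) (not_le.2 h1)
      · refine ⟨-y, fun i => ?_, ?_, ?_⟩
        · by_contra hcon
          rw [not_le] at hcon
          have h1 := refl_lt hG hO (y := -y)
            (by rw [br_neg_left, br_neg_right, hyy]; simpa using hO)
            (by rw [br_neg_left]; linarith) (hroot i) (hneg i) hcon
          rw [act_neg, br_neg_left, br_neg_left, abs_neg, abs_neg] at h1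
          exact absurd (hact _ (reflU_mem_Or hG (hroot i))) (not_le.2 h1)
        · rw [br_neg_left, br_neg_right, hyy]; ring
        · rw [br_neg_left]; ring
    have h1 := hcpt x hxK
    rw [hxx, hxO] at h1
    rw [hC0]
    apply Real.abs_le_sqrt
    rw [le_div_iff₀ hc]
    linarith
  unfold Reflective
  change ((Or G).subgroupOf (OG G)).index ≠ 0
  have hfin : Finite (OG G ⧸ (Or G).subgroupOf (OG G)) := by
    have hF0 := fin C0
    have : Finite {g : M4ˣ | g ∈ OG G ∧ |br G (act (g : M4) O) O| ≤ C0} := hF0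
    refine Finite.of_surjective
      (fun h : {g : M4ˣ | g ∈ OG G ∧ |br G (act (g : M4) O) O| ≤ C0} =>
        (((⟨h.1, h.2.1⟩ : OG G)⁻¹ : OG G) : OG G ⧸ (Or G).subgroupOf (OG G))) ?_
    intro q
    obtain ⟨g, rfl⟩ := QuotientGroup.mk_surjective q
    obtain ⟨w, hw, hle⟩ := key ((g : M4ˣ)⁻¹) (inv_mem g.2)
    have hmem : w * (g : M4ˣ)⁻¹ ∈ OG G := mul_mem (Or_le_OG G hw) (inv_mem g.2)
    refine ⟨⟨w * (g : M4ˣ)⁻¹, hmem, hle⟩, ?_⟩
    apply QuotientGroup.eq.2
    rw [Subgroup.mem_subgroupOf]
    simp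
    exact hw
  exact Subgroup.index_ne_zero_of_finite

end Pool.Agent.Refl.H51
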