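import Pool.Agent.Helper23_Refl.StmtD

/-!
# Module DESC of the squad REFL (MP_c70e36_gt)
The list of all primitive reflective lattices, by descent.
-/

set_option autoImplicit false

namespace Pool.Agent.Refl.H51D

open Matrix

lemma dvd_mulVec (M : M4) {d : ℤ} {v : Z4} (h : ∀ i, d ∣ v i) : ∀ i, d ∣ (M.mulVec v) i := by
  intro i
  unfold Matrix.mulVec dotProduct
  exact Finset.dvd_sum fun j _ => (h j).mul_left _

lemma inv_mul_cancel' (U : M4ˣ) : ((U⁻¹ : M4ˣ) : M4) * (U : M4) = 1 := by simp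

lemma mul_inv_cancel' (U : M4ˣ) : (U : M4) * ((U⁻¹ : M4ˣ) : M4) = 1 := by simp

lemma transpose_conj {R T : M4} {U : M4ˣ} (hU : (U : M4).transpose * R * (U : M4) = T) (W : M4) :
    (((U⁻¹ : M4ˣ) : M4) * W).transpose * T * (((U⁻¹ : M4ˣ) : M4) * W) =
      W.transpose * R * W := by
  rw [← hU, Matrix.transpose_mul]
  have h1 : ((U⁻¹ : M4ˣ) : M4).transpose * (U : M4).transpose = 1 := by
    rw [← Matrix.transpose_mul, mul_inv_cancel', Matrix.transpose_one]
  calc W.transpose * ((U⁻¹ : M4ˣ) : M4).transpose * ((U : M4).transpose * R * (U : M4)) *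
        (((U⁻¹ : M4ˣ) : M4) * W)
      = W.transpose * (((U⁻¹ : M4ˣ) : M4).transpose * (U : M4).transpose) * R *
        ((U : M4) * ((U⁻¹ : M4ˣ) : M4)) * W := by simp only [Matrix.mul_assoc]
    _ = W.transpose * R * W := by rw [h1, mul_inv_cancel']; simp

lemma WW' {W W' : M4} {p : ℤ} (U : M4ˣ) (h : W * W' = p • (1 : M4)) :
    (((U⁻¹ : M4ˣ) : M4) * W) * (W' * (U : M4)) = p • (1 : M4) := by
  calc (((U⁻¹ : M4ˣ) : M4) * W) * (W' * (U : M4)) =
        ((U⁻¹ : M4ˣ) : M4) * (W * W') * (U : M4) := by simp only [Matrix.mul_assoc]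
    _ = p • (1 : M4) := by
      rw [h, Matrix.mul_smul, Matrix.smul_mul, Matrix.mul_one, inv_mul_cancel']

lemma T_mulVec {R T : M4} {U : M4ˣ} (hU : (U : M4).transpose * R * (U : M4) = T) (W : M4)
    (w : Z4) : T.mulVec ((((U⁻¹ : M4ˣ) : M4) * W).mulVec w) =
      (U : M4).transpose.mulVec (R.mulVec (W.mulVec w)) := by
  rw [← hU]
  simp only [Matrix.mulVec_mulVec]
  congr 1
  calc (U : M4).transpose * R * (U : M4) * (((U⁻¹ : M4ˣ) : M4) * W)
      = (U : M4).transpose * R * ((U : M4) * ((U⁻¹ : M4ˣ) : M4)) * W := by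
        simp only [Matrix.mul_assoc]
    _ = (U : M4).transpose * R * W := by rw [mul_inv_cancel', Matrix.mul_one]
    _ = _ := by simp only [Matrix.mul_assoc]

lemma childI_isom {p : ℕ} {R T L : M4} (hI : Isom R T) (h : ChildI p R L) : ChildI p T L := by
  obtain ⟨U, hU⟩ := hI
  obtain ⟨W, W', h1, h2, h3, h4, h5, h6⟩ := h
  refine ⟨((U⁻¹ : M4ˣ) : M4) * W, W' * (U : M4), WW' U h1, ?_, ?_, h4, ?_, ?_⟩
  · rw [transpose_conj hU, h2]
  · intro hu
    apply h3
    rw [Matrix.det_mul] at hu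
    exact isUnit_of_mul_isUnit_right hu
  · intro w hw
    rw [T_mulVec hU]
    exact dvd_mulVec _ (h5 w hw)
  · intro x hx
    rw [← Matrix.mulVec_mulVec]
    exact dvd_mulVec _ (h6 x hx)

lemma childII_isom {p : ℕ} {R T L : M4} (hI : Isom R T) (h : ChildII p R L) :
    ChildII p T L := by
  obtain ⟨U, hU⟩ := hI
  obtain ⟨W, W', h1, h2, h3, h4, h5, h6⟩ := h
  refine ⟨((U⁻¹ : M4ˣ) : M4) * W, W' * (U : M4), WW' U h1, ?_, ?_, h4, ?_, ?_⟩
  · rw [transpose_conj hU, h2]
  · rw [Matrix.det_mul, Int.natAbs_mul, h3]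
    have hu : IsUnit (((U⁻¹ : M4ˣ) : M4).det) := by
      rw [← Matrix.isUnit_iff_isUnit_det]
      exact (U⁻¹).isUnit
    rw [Int.isUnit_iff_natAbs_eq.1 hu, one_mul]
  · intro x i
    rw [T_mulVec hU]
    exact dvd_mulVec _ (h5 x) i
  · intro x hx
    have h7 : ∀ i, (p : ℤ) ∣ R.mulVec ((U : M4).mulVec x) i := by
      have h8 : R.mulVec ((U : M4).mulVec x) =
          ((U⁻¹ : M4ˣ) : M4).transpose.mulVec (T.mulVec x) := by
        rw [← hU]
        simp only [Matrix.mulVec_mulVec]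
        congr 1
        have h9 : ((U⁻¹ : M4ˣ) : M4).transpose * (U : M4).transpose = 1 := by
          rw [← Matrix.transpose_mul, mul_inv_cancel', Matrix.transpose_one]
        calc R * (U : M4) = (((U⁻¹ : M4ˣ) : M4).transpose * (U : M4).transpose) * R *
              (U : M4) := by rw [h9, Matrix.one_mul]
          _ = _ := by simp only [Matrix.mul_assoc]
      rw [h8]
      exact dvd_mulVec _ hx
    obtain ⟨y, hy⟩ := h6 _ h7
    refine ⟨y, ?_⟩
    rw [← Matrix.mulVec_mulVec, ← hy, Matrix.mulVec_mulVec, inv_mul_cancel', Matrix.one_mulVec]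

lemma inT_mono {A B : List M4} (h : A ⊆ B) {G : M4} (hG : InT A G) : InT B G := by
  obtain ⟨T, hT, hI⟩ := hG
  exact ⟨T, h hT, hI⟩

lemma closI_use {p : ℕ} {A : List M4} (hC : ClosI p A) {R L : M4} (hR : InT A R)
    (hL : Lat L) (hr : Reflective L) (h : ChildI p R L) : InT A L := by
  obtain ⟨T, hT, hI⟩ := hR
  exact hC T hT L hL hr (childI_isom hI h)

lemma closII_use {p : ℕ} {A : List M4} (hC : ClosII p A) {R L : M4} (hR : InT A R)
    (hL : Lat L) (hr : Reflective L) (h : ChildII p R L) : InT A L := by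
  obtain ⟨T, hT, hI⟩ := hR
  exact hC T hT L hL hr (childII_isom hI h)

/-- one level of the descent -/
lemma step (hI : RedIStmt) (hII : RedIIStmt) (q : ℕ) (hq : q.Prime) (Pr : List ℕ)
    (hPr : ∀ p ∈ Pr, p.Prime ∧ p ≠ q) (A B : List M4) (hAB : A ⊆ B) (h1 : ClosI q B)
    (h2 : ClosII q B)
    (hA : ∀ G : M4, Lat G → PrimG G → Reflective G →
      (∀ p ∈ Pr, SSF p G ∧ Rk2 p G) → SSF q G → Rk2 q G → InT A G) :
    ∀ (N : ℕ) (G : M4), G.det.natAbs ≤ N → Lat G → PrimG G → Reflective G →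
      (∀ p ∈ Pr, SSF p G ∧ Rk2 p G) → InT B G := by
  intro N
  induction N using Nat.strong_induction_on with
  | _ N ih =>
    intro G hN hL hP hR hc
    by_cases hS : SSF q G
    · by_cases hk : Rk2 q G
      · exact inT_mono hAB (hA G hL hP hR hc hS hk)
      · obtain ⟨R, r1, r2, r3, r4, r5, r6⟩ := hII G q hq hL hP hS hk
        refine closII_use h2 (ih R.det.natAbs (by omega) R le_rfl r2 r3 (r5 hR) ?_) hL hR r1
        intro p hp
        obtain ⟨hpp, hpq⟩ := hPr p hp
        exact ⟨((r6 p hpp hpq).1).2 (hc p hp).1, ((r6 p hpp hpq).2).2 (hc p hp).2⟩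
    · obtain ⟨R, r1, r2, r3, r4, r5, r6⟩ := hI G q hq hL hP hS
      refine closI_use h1 (ih R.det.natAbs (by omega) R le_rfl r2 r3 (r5 hR) ?_) hL hR r1
      intro p hp
      obtain ⟨hpp, hpq⟩ := hPr p hp
      exact ⟨((r6 p hpp hpq).1).2 (hc p hp).1, ((r6 p hpp hpq).2).2 (hc p hp).2⟩

theorem desc (hI : RedIStmt) (hII : RedIIStmt) : DescStmt := by
  intro A0 A11 A7 A5 A3 A2 s0 s11 s7 s5 s3 hst hcl c7 d7 c5 d5 c3 d3 c2 d2
  -- level 11
  have L11 : ∀ (N : ℕ) (G : M4), G.det.natAbs ≤ N → Lat G → PrimG G → Reflective G →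
      (∀ p ∈ [2, 3, 5, 7], SSF p G ∧ Rk2 p G) → InT A11 G := by
    intro N
    induction N using Nat.strong_induction_on with
    | _ N ih =>
      intro G hN hL hP hR hc
      by_cases hred : ∀ p : ℕ, p.Prime → 7 < p → SSF p G → Rk2 p G
      · exact inT_mono s0 (hst G hL hR ⟨hP, hc, hred⟩)
      · push Not at hred
        obtain ⟨p, hp, hp7, hS, hk⟩ := hred
        obtain ⟨R, r1, r2, r3, r4, r5, r6⟩ := hII G p hp hL hP hS hk
        refine closII_use (hcl p hp hp7) (ih R.det.natAbs (by omega) R le_rfl r2 r3 (r5 hR) ?_)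
          hL hR r1
        intro q hq
        have hq' : q.Prime ∧ q ≠ p := by
          simp only [List.mem_cons, List.not_mem_nil, or_false] at hq
          rcases hq with rfl | rfl | rfl | rfl
          · exact ⟨by norm_num, by omega⟩
          · exact ⟨by norm_num, by omega⟩
          · exact ⟨by norm_num, by omega⟩
          · exact ⟨by norm_num, by omega⟩
        exact ⟨((r6 q hq'.1 hq'.2).1).2 (hc q hq).1, ((r6 q hq'.1 hq'.2).2).2 (hc q hq).2⟩
  have L7 := step hI hII 7 (by norm_num) [2, 3, 5] (by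
    intro p hp
    simp only [List.mem_cons, List.not_mem_nil, or_false] at hp
    rcases hp with rfl | rfl | rfl <;> norm_num) A11 A7 s11 c7 d7 (by
    intro G hL hP hR hc hS hk
    refine L11 _ G le_rfl hL hP hR ?_
    intro p hp
    simp only [List.mem_cons, List.not_mem_nil, or_false] at hp
    rcases hp with rfl | rfl | rfl | rfl
    · exact hc 2 (by simp)
    · exact hc 3 (by simp)
    · exact hc 5 (by simp)
    · exact ⟨hS, hk⟩)
  have L5 := step hI hII 5 (by norm_num) [2, 3] (by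
    intro p hp
    simp only [List.mem_cons, List.not_mem_nil, or_false] at hp
    rcases hp with rfl | rfl <;> norm_num) A7 A5 s7 c5 d5 (by
    intro G hL hP hR hc hS hk
    refine L7 _ G le_rfl hL hP hR ?_
    intro p hp
    simp only [List.mem_cons, List.not_mem_nil, or_false] at hp
    rcases hp with rfl | rfl | rfl
    · exact hc 2 (by simp)
    · exact hc 3 (by simp)
    · exact ⟨hS, hk⟩)
  have L3 := step hI hII 3 (by norm_num) [2] (by
    intro p hp
    simp only [List.mem_cons, List.not_mem_nil, or_false] at hp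
    rcases hp with rfl <;> norm_num) A5 A3 s5 c3 d3 (by
    intro G hL hP hR hc hS hk
    refine L5 _ G le_rfl hL hP hR ?_
    intro p hp
    simp only [List.mem_cons, List.not_mem_nil, or_false] at hp
    rcases hp with rfl | rfl
    · exact hc 2 (by simp)
    · exact ⟨hS, hk⟩)
  have L2 := step hI hII 2 (by norm_num) [] (by
    intro p hp
    simp at hp) A3 A2 s3 c2 d2 (by
    intro G hL hP hR hc hS hk
    refine L3 _ G le_rfl hL hP hR ?_
    intro p hp
    simp only [List.mem_cons, List.not_mem_nil, or_false] at hp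
    rcases hp with rfl
    exact ⟨hS, hk⟩)
  intro G hL hP hR
  exact L2 _ G le_rfl hL hP hR (by intro p hp; simp at hp)

end Pool.Agent.Refl.H51D
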