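import Pool.Agent.Helper23_Refl.StmtD
import Pool.Agent.Helper84_Refl.Base
import Pool.Agent.Helper51_Refl.Lor

/-!
# Module CMP of the squad REFL (MP_c70e36_gt)
The compactness certificate of a chamber.
-/

set_option autoImplicit false

namespace Pool.Agent.Refl.H51D

open Matrix

section cmp
variable {G : M4} {n m : ℕ} {e : Fin n → Z4} {O : Z4} {V : Fin m → Z4}
  {t : Fin m → Fin 3 → Fin n} {nb : Fin m → Fin 3 → Fin m}

/-- decomposition of a vector with respect to a vertex and its three neighbours -/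
lemma decomp (hG : Lat G) (hV : ∀ a, bz G (V a) (V a) < 0)
    (ht : ∀ a s, bz G (V a) (e (t a s)) = 0)
    (hnb : ∀ a s s', if s = s' then bz G (V (nb a s)) (e (t a s')) < 0
      else bz G (V (nb a s)) (e (t a s')) = 0) (a : Fin m) (x : R4)
    (hx : ∀ i, br G x (up (e i)) ≤ 0) :
    ∃ (α : ℝ) (b : Fin 3 → ℝ), (∀ s, 0 ≤ b s) ∧
      x = α • up (V a) + ∑ s, b s • up (V (nb a s)) := by
  have hneg : ∀ s, br G (up (V (nb a s))) (up (e (t a s))) < 0 := by
    intro s
    have := hnb a s s
    rw [if_pos rfl] at this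
    rw [br_up]
    exact_mod_cast this
  have hzero : ∀ s s', s ≠ s' → br G (up (V (nb a s))) (up (e (t a s'))) = 0 := by
    intro s s' hss
    have := hnb a s s'
    rw [if_neg hss] at this
    rw [br_up, this]
    simp
  have hta : ∀ s, br G (up (V a)) (up (e (t a s))) = 0 := by
    intro s
    rw [br_up, ht a s]
    simp
  have hVa : br G (up (V a)) (up (V a)) < 0 := by
    rw [br_up]
    exact_mod_cast hV a
  let b : Fin 3 → ℝ := fun s => br G x (up (e (t a s))) /
    br G (up (V (nb a s))) (up (e (t a s)))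
  have hb : ∀ s, 0 ≤ b s := fun s => div_nonneg_of_nonpos (hx _) (hneg s).le
  let x' : R4 := x - ∑ s, b s • up (V (nb a s))
  have hx' : ∀ s, br G x' (up (e (t a s))) = 0 := by
    intro s
    simp only [x']
    rw [br_sub_left, br_sum_left]
    rw [Finset.sum_eq_single s]
    · rw [br_smul_left]
      simp only [b]
      rw [div_mul_cancel₀ _ (hneg s).ne, sub_self]
    · intro s' _ hs'
      rw [br_smul_left, hzero s' s hs', mul_zero]
    · intro h
      exact absurd (Finset.mem_univ s) h
  let x'' : R4 := x' - (br G x' (up (V a)) / br G (up (V a)) (up (V a))) • up (V a)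
  have h1 : br G (up (V a)) x'' = 0 := by
    simp only [x'']
    rw [br_sub_right, br_smul_right, hG.bcomm (up (V a)) x', div_mul_cancel₀ _ hVa.ne, sub_self]
  have h2 : ∀ s, br G x'' (up (e (t a s))) = 0 := by
    intro s
    simp only [x'']
    rw [br_sub_left, br_smul_left, hx' s, hta s]
    ring
  have hVne : up (V a) ≠ 0 := by
    intro h0
    rw [h0] at hVa
    simp [br] at hVa
  have hx''0 : x'' = 0 := by
    by_contra hne
    have hq : 0 < br G x'' x'' := hG.pos hVa (by rw [hG.bcomm]; exact h1) hne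
    obtain ⟨c, hc, hc2⟩ := H51.dep hG.sig hVne
      ![up (e (t a 0)), up (e (t a 1)), up (e (t a 2)), x''] (by
        intro i
        fin_cases i
        · exact hta 0
        · exact hta 1
        · exact hta 2
        · exact h1)
    rw [Fin.sum_univ_four] at hc2
    have hc2' : c 0 • up (e (t a 0)) + c 1 • up (e (t a 1)) + c 2 • up (e (t a 2)) +
      c 3 • x'' = 0 := hc2
    have hc3 : c 3 = 0 := by
      have h5 : br G x'' (c 0 • up (e (t a 0)) + c 1 • up (e (t a 1)) +
          c 2 • up (e (t a 2)) + c 3 • x'') = 0 := by rw [hc2']; simp [br]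
      simp only [br_add_right, br_smul_right, h2] at h5
      rcases mul_eq_zero.1 (show c 3 * br G x'' x'' = 0 by linarith) with h | h
      · exact h
      · exact absurd h hq.ne'
    rw [hc3, zero_smul, add_zero] at hc2'
    have hp : ∀ s, br G (up (V (nb a s))) (c 0 • up (e (t a 0)) + c 1 • up (e (t a 1)) +
          c 2 • up (e (t a 2))) = 0 := by
      intro s
      rw [hc2']
      simp [br]
    have p0 := hp 0
    have p1 := hp 1
    have p2 := hp 2
    simp only [br_add_right, br_smul_right] at p0 p1 p2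
    rw [hzero 0 1 (by decide), hzero 0 2 (by decide)] at p0
    rw [hzero 1 0 (by decide), hzero 1 2 (by decide)] at p1
    rw [hzero 2 0 (by decide), hzero 2 1 (by decide)] at p2
    apply hc
    have q0 : c 0 = 0 := by
      rcases mul_eq_zero.1 (show c 0 * br G (up (V (nb a 0))) (up (e (t a 0))) = 0 by
        linarith) with h | h
      · exact h
      · exact absurd h (hneg 0).ne
    have q1 : c 1 = 0 := by
      rcases mul_eq_zero.1 (show c 1 * br G (up (V (nb a 1))) (up (e (t a 1))) = 0 by
        linarith) with h | h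
      · exact h
      · exact absurd h (hneg 1).ne
    have q2 : c 2 = 0 := by
      rcases mul_eq_zero.1 (show c 2 * br G (up (V (nb a 2))) (up (e (t a 2))) = 0 by
        linarith) with h | h
      · exact h
      · exact absurd h (hneg 2).ne
    funext i
    fin_cases i
    · exact q0
    · exact q1
    · exact q2
    · exact hc3
  refine ⟨br G x' (up (V a)) / br G (up (V a)) (up (V a)), b, hb, ?_⟩
  have h3 : x' = (br G x' (up (V a)) / br G (up (V a)) (up (V a))) • up (V a) :=
    sub_eq_zero.1 hx''0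
  rw [← h3]
  simp only [x']
  abel

/-- a functional which dominates `μ h` at all the vertices dominates `μ h` on the cone -/
lemma core (hG : Lat G) (hm : 0 < m) (hV : ∀ a, bz G (V a) (V a) < 0)
    (ht : ∀ a s, bz G (V a) (e (t a s)) = 0)
    (hnb : ∀ a s s', if s = s' then bz G (V (nb a s)) (e (t a s')) < 0
      else bz G (V (nb a s)) (e (t a s')) = 0) (w0 : R4)
    (hw0 : ∀ a, 0 < br G (up (V a)) w0) (hw : ∀ x : R4, (∀ i, br G x (up (e i)) ≤ 0) →
      0 ≤ br G x w0) (z : R4) (μ : ℝ) (hz : ∀ a, μ * br G (up (V a)) w0 ≤ br G (up (V a)) z)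
    (x : R4) (hx : ∀ i, br G x (up (e i)) ≤ 0) : μ * br G x w0 ≤ br G x z := by
  have : Nonempty (Fin m) := ⟨⟨0, hm⟩⟩
  obtain ⟨a, -, ha⟩ := Finset.exists_min_image (Finset.univ : Finset (Fin m))
    (fun a => br G (up (V a)) z / br G (up (V a)) w0) Finset.univ_nonempty
  set ν := br G (up (V a)) z / br G (up (V a)) w0 with hν
  have hμν : μ ≤ ν := by
    rw [hν, le_div_iff₀ (hw0 a)]
    exact hz a
  have hνa : br G (up (V a)) z = ν * br G (up (V a)) w0 := by
    rw [hν, div_mul_cancel₀ _ (hw0 a).ne']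
  have hνb : ∀ b, ν * br G (up (V b)) w0 ≤ br G (up (V b)) z := by
    intro b
    have h1 := ha b (Finset.mem_univ b)
    rw [← le_div_iff₀ (hw0 b)]
    exact h1
  obtain ⟨α, b, hb, hxe⟩ := decomp hG hV ht hnb a x hx
  have h1 : ν * br G x w0 ≤ br G x z := by
    rw [hxe]
    rw [br_add_left, br_add_left, br_smul_left, br_smul_left, br_sum_left, br_sum_left, hνa]
    have h2 : ν * ∑ s, br G (b s • up (V (nb a s))) w0 ≤
        ∑ s, br G (b s • up (V (nb a s))) z := by
      rw [Finset.mul_sum]
      refine Finset.sum_le_sum fun s _ => ?_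
      rw [br_smul_left, br_smul_left]
      have := mul_le_mul_of_nonneg_left (hνb (nb a s)) (hb s)
      linarith
    linarith
  have h2 := mul_le_mul_of_nonneg_right hμν (hw x hx)
  linarith

theorem cmp : CmpStmt := by
  intro G hG n e O m V t nb hm hO hOe hV ht hnb
  have : Nonempty (Fin m) := ⟨⟨0, hm⟩⟩
  obtain ⟨w0, hw0br⟩ : ∃ w0 : R4, ∀ x, br G x w0 = - ∑ i, br G x (up (e i)) :=
    ⟨- ∑ i, up (e i), fun x => by rw [br_neg_right, br_sum_right]⟩
  have hw0 : ∀ a, 0 < br G (up (V a)) w0 := by
    intro a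
    rw [hw0br]
    have h1 : (∑ i, br G (up (V a)) (up (e i))) = ((∑ i, bz G (V a) (e i) : ℤ) : ℝ) := by
      push_cast
      exact Finset.sum_congr rfl fun i _ => by rw [br_up]
    rw [h1]
    have := (hV a).2.2
    have h2 : ((∑ i, bz G (V a) (e i) : ℤ) : ℝ) < 0 := by exact_mod_cast this
    linarith
  have hw : ∀ x : R4, (∀ i, br G x (up (e i)) ≤ 0) → 0 ≤ br G x w0 := by
    intro x hx
    rw [hw0br]
    have := Finset.sum_nonpos fun i (_ : i ∈ Finset.univ) => hx i
    linarith
  have hVV : ∀ a, bz G (V a) (V a) < 0 := fun a => (hV a).1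
  have hcore := core hG hm hVV ht hnb w0 hw0 hw
  have hO' : br G (up O) (up O) < 0 := by rw [br_up]; exact_mod_cast hO
  have hVO : ∀ a, br G (up (V a)) (up O) < 0 := by
    intro a
    rw [br_up]
    exact_mod_cast (hV a).2.1
  have hVV' : ∀ a, br G (up (V a)) (up (V a)) < 0 := by
    intro a
    rw [br_up]
    exact_mod_cast hVV a
  -- the products of the vertices
  obtain ⟨p, -, hp⟩ := Finset.exists_min_image (Finset.univ : Finset (Fin m × Fin m))
    (fun p => -br G (up (V p.1)) (up (V p.2)) /
      (br G (up (V p.1)) w0 * br G (up (V p.2)) w0)) Finset.univ_nonempty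
  set c1 := -br G (up (V p.1)) (up (V p.2)) /
      (br G (up (V p.1)) w0 * br G (up (V p.2)) w0) with hc1
  have hc1pos : 0 < c1 := by
    apply div_pos _ (mul_pos (hw0 _) (hw0 _))
    have := hG.sheet hO' (hVV' p.1).le (hVV' p.2) (hVO p.1) (hVO p.2)
    linarith
  have hc1le : ∀ a b, c1 * (br G (up (V a)) w0 * br G (up (V b)) w0) ≤
      -br G (up (V a)) (up (V b)) := by
    intro a b
    rw [← le_div_iff₀ (mul_pos (hw0 _) (hw0 _))]
    exact hp (a, b) (Finset.mem_univ _)
  -- the distance to `O`
  obtain ⟨q, -, hq⟩ := Finset.exists_max_image (Finset.univ : Finset (Fin m))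
    (fun a => -br G (up (V a)) (up O) / br G (up (V a)) w0) Finset.univ_nonempty
  set C := -br G (up (V q)) (up O) / br G (up (V q)) w0 with hC
  have hCpos : 0 < C := div_pos (by have := hVO q; linarith) (hw0 q)
  have hCle : ∀ a, -br G (up (V a)) (up O) ≤ C * br G (up (V a)) w0 := by
    intro a
    rw [← div_le_iff₀ (hw0 a)]
    exact hq a (Finset.mem_univ _)
  refine ⟨c1 / C ^ 2, by positivity, fun x hx => ?_⟩
  have h1 : ∀ a, c1 * br G x w0 * br G (up (V a)) w0 ≤ br G (up (V a)) (-x) := by
    intro a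
    have h2 := hcore (-up (V a)) (c1 * br G (up (V a)) w0) (fun b => by
      rw [br_neg_right]
      have := hc1le b a
      linarith) x hx
    rw [br_neg_right] at h2 ⊢
    rw [hG.bcomm (up (V a)) x]
    linarith
  have h3 := hcore (-x) (c1 * br G x w0) h1 x hx
  rw [br_neg_right] at h3
  have h4 := hcore (-up O) 0 (fun a => by
    rw [br_neg_right, zero_mul]
    have := hVO a
    linarith) x hx
  rw [br_neg_right, zero_mul] at h4
  have h5 := hcore (up O) (-C) (fun a => by
    have := hCle a
    linarith) x hx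
  have h6 : (br G x (up O)) ^ 2 ≤ (C * br G x w0) ^ 2 := by
    apply sq_le_sq'
    · linarith
    · linarith [hw x hx, mul_nonneg hCpos.le (hw x hx)]
  have h7 : c1 / C ^ 2 * (br G x (up O)) ^ 2 ≤ c1 * (br G x w0) ^ 2 := by
    calc c1 / C ^ 2 * (br G x (up O)) ^ 2 ≤ c1 / C ^ 2 * (C * br G x w0) ^ 2 := by
          gcongr
      _ = c1 * (br G x w0) ^ 2 := by field_simp
  linarith

end cmp

end Pool.Agent.Refl.H51D
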