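import Pool.Agent.Helper23_Refl.StmtC5

/-!
# IDX: the index of the sublattices
-/

namespace Pool.Agent.Refl.H51I

open Matrix Pool.Agent.Refl

theorem cg_iff (p : ℕ) (x y : Z4) : Cg p x y ↔ ∃ w : Z4, x = y + (p : ℤ) • w := by
  constructor
  · intro h
    choose w hw using h
    refine ⟨w, ?_⟩
    funext i
    have := hw i
    simp only [Pi.add_apply, Pi.smul_apply, smul_eq_mul]
    linarith
  · rintro ⟨w, rfl⟩ i
    refine ⟨w i, ?_⟩
    simp only [Pi.add_apply, Pi.smul_apply, smul_eq_mul]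
    ring

theorem mem_sub (p : ℕ) (B : List Z4) (v : Z4) :
    v ∈ SubX p B ↔ ∃ u ∈ Submodule.span ℤ {v | v ∈ B}, Cg p v u := by
  have hP : ∀ z : Z4, z ∈ Submodule.span ℤ {v | ∃ w : Z4, v = (p : ℤ) • w} ↔
      ∃ w : Z4, z = (p : ℤ) • w := by
    intro z
    constructor
    · intro hz
      induction hz using Submodule.span_induction with
      | mem x h => exact h
      | zero => exact ⟨0, by simp⟩
      | add x y _ _ hx hy =>
        obtain ⟨a, rfl⟩ := hx
        obtain ⟨b, rfl⟩ := hy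
        exact ⟨a + b, by rw [smul_add]⟩
      | smul c x _ hx =>
        obtain ⟨a, rfl⟩ := hx
        exact ⟨c • a, by rw [smul_comm]⟩
    · intro hz
      exact Submodule.subset_span hz
  unfold SubX
  rw [Submodule.span_union, Submodule.mem_sup]
  constructor
  · rintro ⟨u, hu, z, hz, rfl⟩
    obtain ⟨w, rfl⟩ := (hP z).1 hz
    exact ⟨u, hu, (cg_iff _ _ _).2 ⟨w, rfl⟩⟩
  · rintro ⟨u, hu, hc⟩
    obtain ⟨w, rfl⟩ := (cg_iff _ _ _).1 hc
    exact ⟨u, hu, _, (hP _).2 ⟨w, rfl⟩, rfl⟩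

theorem mem_sub1 (p : ℕ) (x v : Z4) : v ∈ SubX p [x] ↔ ∃ t : ℤ, Cg p v (t • x) := by
  rw [mem_sub]
  have h : {v | v ∈ [x]} = {x} := by
    ext z; simp
  rw [h]
  constructor
  · rintro ⟨u, hu, hc⟩
    obtain ⟨t, rfl⟩ := Submodule.mem_span_singleton.1 hu
    exact ⟨t, hc⟩
  · rintro ⟨t, hc⟩
    exact ⟨_, Submodule.mem_span_singleton.2 ⟨t, rfl⟩, hc⟩

theorem mem_sub2 (p : ℕ) (x y v : Z4) :
    v ∈ SubX p [x, y] ↔ ∃ s t : ℤ, Cg p v (s • x + t • y) := by
  rw [mem_sub]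
  have h : {v | v ∈ [x, y]} = {x, y} := by
    ext z; simp
  rw [h]
  constructor
  · rintro ⟨u, hu, hc⟩
    obtain ⟨s, t, rfl⟩ := Submodule.mem_span_pair.1 hu
    exact ⟨s, t, hc⟩
  · rintro ⟨s, t, hc⟩
    exact ⟨_, Submodule.mem_span_pair.2 ⟨s, t, rfl⟩, hc⟩

theorem mem_sub3 (p : ℕ) (x y z v : Z4) :
    v ∈ SubX p [x, y, z] ↔ ∃ r s t : ℤ, Cg p v (r • x + (s • y + t • z)) := by
  rw [mem_sub]
  have h : {v | v ∈ [x, y, z]} = {x, y, z} := by
    ext z; simp
  rw [h]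
  constructor
  · rintro ⟨u, hu, hc⟩
    obtain ⟨r, u', hu', rfl⟩ := Submodule.mem_span_insert.1 hu
    obtain ⟨s, t, rfl⟩ := Submodule.mem_span_pair.1 hu'
    exact ⟨r, s, t, hc⟩
  · rintro ⟨r, s, t, hc⟩
    exact ⟨_, Submodule.mem_span_insert.2 ⟨r, _, Submodule.mem_span_pair.2 ⟨s, t, rfl⟩, rfl⟩, hc⟩

theorem factor {X : Submodule ℤ Z4} {W M : M4} (h : ∀ x, x ∈ X → ∃ y, x = W.mulVec y)
    (hM : ∀ y, M.mulVec y ∈ X) : ∃ U : M4, M = W * U := by
  choose f hf using fun j => h _ (hM (Pi.single j 1))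
  refine ⟨Matrix.of fun i j => f j i, ?_⟩
  ext i j
  have h1 := congrFun (hf j) i
  rw [Matrix.mulVec_single_one] at h1
  rw [Matrix.mul_apply]
  simpa [Matrix.mulVec, dotProduct] using h1

theorem idx_of (p : ℕ) (X : Submodule ℤ Z4) (W0 : M4) (q : ℕ)
    (h : ∀ x, x ∈ X ↔ ∃ y, x = W0.mulVec y) (hd : W0.det.natAbs = q) : Idx p X q := by
  intro W hW
  obtain ⟨-, hW⟩ := hW
  obtain ⟨U, hU⟩ := factor (X := X) (W := W0) (M := W) (fun x hx => (h x).1 hx)
    (fun y => (hW _).2 ⟨y, rfl⟩)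
  obtain ⟨V, hV⟩ := factor (X := X) (W := W) (M := W0) (fun x hx => (hW x).1 hx)
    (fun y => (h _).2 ⟨y, rfl⟩)
  have h1 : W.det.natAbs = W0.det.natAbs * U.det.natAbs := by
    rw [hU, Matrix.det_mul, Int.natAbs_mul]
  have h2 : W0.det.natAbs = W.det.natAbs * V.det.natAbs := by
    conv_lhs => rw [hV]
    rw [Matrix.det_mul, Int.natAbs_mul]
  rw [← hd]
  exact Nat.dvd_antisymm ⟨_, h2⟩ ⟨_, h1⟩

/-- basis for a line with pivot `i` -/
def W1 (p : ℕ) (i : Fin 4) (x : Z4) : M4 :=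
  Matrix.of fun r s => if s = i then x r else if r = s then (p : ℤ) else 0

/-- basis for a plane with pivots `i`, `j` -/
def W2 (p : ℕ) (i j : Fin 4) (x y : Z4) : M4 :=
  Matrix.of fun r s => if s = i then x r else if s = j then y r else if r = s then (p : ℤ) else 0

/-- basis for a hyperplane with pivot `i` -/
def W3 (p : ℕ) (i : Fin 4) (y : Z4) : M4 :=
  Matrix.of fun r s => if s = i then (if r = i then (p : ℤ) else 0)
    else if r = i then - y s else if r = s then 1 else 0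

theorem det1 (p : ℕ) (i : Fin 4) (x : Z4) (hx : x i = 1) : (W1 p i x).det = (p : ℤ) ^ 3 := by
  fin_cases i <;>
  simp [W1, Matrix.det_succ_row_zero, Fin.sum_univ_succ, Fin.succAbove] at hx ⊢ <;> rw [hx] <;> ring

theorem det2 (p : ℕ) (i j : Fin 4) (x y : Z4) (hij : i < j) (hx : x i = 1) (hx' : x j = 0)
    (hy : y i = 0) (hy' : y j = 1) : (W2 p i j x y).det = (p : ℤ) ^ 2 := by
  fin_cases i <;> fin_cases j <;>
  simp [W2, Matrix.det_succ_row_zero, Fin.sum_univ_succ, Fin.succAbove] at hij hx hx' hy hy' ⊢ <;>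
  rw [hx, hx', hy, hy'] <;> ring

theorem det3 (p : ℕ) (i : Fin 4) (y : Z4) : (W3 p i y).det = (p : ℤ) := by
  fin_cases i <;>
  simp [W3, Matrix.det_succ_row_zero, Fin.sum_univ_succ, Fin.succAbove]

theorem mul1 (p : ℕ) (i : Fin 4) (x u : Z4) : (W1 p i x).mulVec u =
    u i • x + (p : ℤ) • (fun r => if r = i then 0 else u r) := by
  funext r
  fin_cases i <;> fin_cases r <;>
  simp [W1, Matrix.mulVec, dotProduct, Fin.sum_univ_succ] <;> ring

theorem mul2 (p : ℕ) (i j : Fin 4) (x y u : Z4) (hij : i < j) : (W2 p i j x y).mulVec u =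
    u i • x + u j • y + (p : ℤ) • (fun r => if r = i then 0 else if r = j then 0 else u r) := by
  funext r
  fin_cases i <;> fin_cases j <;> first
    | (exfalso; revert hij; decide)
    | (fin_cases r <;> simp [W2, Matrix.mulVec, dotProduct, Fin.sum_univ_succ] <;> ring)

theorem range1 (p : ℕ) (i : Fin 4) (x : Z4) (hx : x i = 1) (v : Z4) :
    v ∈ SubX p [x] ↔ ∃ u, v = (W1 p i x).mulVec u := by
  rw [mem_sub1]
  constructor
  · rintro ⟨t, h⟩
    obtain ⟨w, rfl⟩ := (cg_iff _ _ _).1 h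
    refine ⟨fun r => if r = i then t + p * w i else w r - w i * x r, ?_⟩
    rw [mul1]
    funext r
    by_cases hr : r = i
    · subst hr
      simp [hx]
    · simp [hr]
      ring
  · rintro ⟨u, rfl⟩
    rw [mul1]
    exact ⟨u i, (cg_iff _ _ _).2 ⟨_, rfl⟩⟩

theorem range2 (p : ℕ) (i j : Fin 4) (x y : Z4) (hij : i < j) (hx : x i = 1) (hx' : x j = 0)
    (hy : y i = 0) (hy' : y j = 1) (v : Z4) :
    v ∈ SubX p [x, y] ↔ ∃ u, v = (W2 p i j x y).mulVec u := by
  rw [mem_sub2]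
  constructor
  · rintro ⟨s, t, h⟩
    obtain ⟨w, rfl⟩ := (cg_iff _ _ _).1 h
    refine ⟨fun r => if r = i then s + p * w i else if r = j then t + p * w j
      else w r - w i * x r - w j * y r, ?_⟩
    rw [mul2 _ _ _ _ _ _ hij]
    have hji : j ≠ i := ne_of_gt hij
    funext r
    by_cases hr : r = i
    · subst hr
      simp [hx, hy, hji]
    · by_cases hr' : r = j
      · subst hr'
        simp [hx', hy', hr]
      · simp [hr, hr', hji]
        ring
  · rintro ⟨u, rfl⟩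
    rw [mul2 _ _ _ _ _ _ hij]
    exact ⟨u i, u j, (cg_iff _ _ _).2 ⟨_, rfl⟩⟩

theorem range3 (p : ℕ) (i : Fin 4) (y : Z4) (hy : y i = 1) (v : Z4) :
    v ∈ HypX p y ↔ ∃ u, v = (W3 p i y).mulVec u := by
  have hm : v ∈ HypX p y ↔ (p : ℤ) ∣ y ⬝ᵥ v := Iff.rfl
  rw [hm]
  constructor
  · rintro ⟨m, hm⟩
    refine ⟨fun r => if r = i then m else v r, ?_⟩
    simp only [dotProduct, Fin.sum_univ_succ] at hm
    funext r
    fin_cases i <;> fin_cases r <;>
    simp [W3, Matrix.mulVec, dotProduct, Fin.sum_univ_succ] at hy hm ⊢ <;>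
    (try rw [hy] at hm) <;> (try linarith)
  · rintro ⟨u, rfl⟩
    refine ⟨u i, ?_⟩
    fin_cases i <;>
    simp [W3, Matrix.mulVec, dotProduct, Fin.sum_univ_succ] at hy ⊢ <;> rw [hy] <;> ring

theorem idx1 (p : ℕ) (i : Fin 4) (x : Z4) (hx : x i = 1) : Idx p (SubX p [x]) (p ^ 3) :=
  idx_of p _ (W1 p i x) _ (range1 p i x hx) (by rw [det1 p i x hx, Int.natAbs_pow]; rfl)

theorem idx2 (p : ℕ) (i j : Fin 4) (x y : Z4) (hij : i < j) (hx : x i = 1) (hx' : x j = 0)
    (hy : y i = 0) (hy' : y j = 1) : Idx p (SubX p [x, y]) (p ^ 2) :=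
  idx_of p _ (W2 p i j x y) _ (range2 p i j x y hij hx hx' hy hy')
    (by rw [det2 p i j x y hij hx hx' hy hy', Int.natAbs_pow]; rfl)

theorem idx3 (p : ℕ) (i : Fin 4) (y : Z4) (hy : y i = 1) : Idx p (HypX p y) p :=
  idx_of p _ (W3 p i y) _ (range3 p i y hy) (by rw [det3]; rfl)

theorem ind2 (p : ℕ) (i j : Fin 4) (x y : Z4) (hx : x i = 1) (hx' : x j = 0)
    (hy : y i = 0) (hy' : y j = 1) : Ind p x y := by
  intro a b h
  have h1 := h i
  have h2 := h j
  simp only [Pi.add_apply, Pi.smul_apply, smul_eq_mul, hx, hx', hy, hy', Pi.zero_apply] at h1 h2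
  constructor
  · simpa using h1
  · simpa using h2

theorem hyp_eq (p : ℕ) (y : Z4) (hy : LnForm p y) : HypX p y = SubX p (hypB y) := by
  ext v
  have hm : v ∈ HypX p y ↔ (p : ℤ) ∣ y ⬝ᵥ v := Iff.rfl
  rw [hm]
  obtain ⟨a, b, c, -, -, -, h⟩ := hy
  rcases h with rfl | rfl | rfl | rfl
  · have hB : hypB (nz 1 a b c) = [![-(a : ℤ), 1, 0, 0], ![-(b : ℤ), 0, 1, 0],
        ![-(c : ℤ), 0, 0, 1]] := by simp [hypB, nz]
    rw [hB, mem_sub3]
    constructor
    · rintro ⟨m, hm⟩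
      refine ⟨v 1, v 2, v 3, ?_⟩
      intro i
      fin_cases i
      · refine ⟨m, ?_⟩
        simp [nz, dotProduct, Fin.sum_univ_succ] at hm ⊢
        linear_combination hm
      all_goals simp
    · rintro ⟨r, s, t, h⟩
      have h0 := h 0
      have h1 := h 1
      have h2 := h 2
      have h3 := h 3
      simp at h0 h1 h2 h3
      have h4 := dvd_add (dvd_add h0 (Dvd.dvd.mul_left h1 (a : ℤ)))
        (dvd_add (Dvd.dvd.mul_left h2 (b : ℤ)) (Dvd.dvd.mul_left h3 (c : ℤ)))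
      have e4 : ∀ z : ℤ, (p : ℤ) ∣ z → ∀ w : ℤ, w = z → (p : ℤ) ∣ w := fun z hz w hw => hw ▸ hz
      refine e4 _ h4 _ ?_
      simp [nz, dotProduct, Fin.sum_univ_succ]
      ring
  · have hB : hypB (nz 0 1 a b) = [![1, 0, 0, 0], ![0, -(a : ℤ), 1, 0],
        ![0, -(b : ℤ), 0, 1]] := by simp [hypB, nz]
    rw [hB, mem_sub3]
    constructor
    · rintro ⟨m, hm⟩
      refine ⟨v 0, v 2, v 3, ?_⟩
      intro i
      fin_cases i
      · simp
      · refine ⟨m, ?_⟩
        simp [nz, dotProduct, Fin.sum_univ_succ] at hm ⊢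
        linear_combination hm
      all_goals simp
    · rintro ⟨r, s, t, h⟩
      have h1 := h 1
      have h2 := h 2
      have h3 := h 3
      simp at h1 h2 h3
      have h4 := dvd_add h1 (dvd_add (Dvd.dvd.mul_left h2 (a : ℤ)) (Dvd.dvd.mul_left h3 (b : ℤ)))
      have e4 : ∀ z : ℤ, (p : ℤ) ∣ z → ∀ w : ℤ, w = z → (p : ℤ) ∣ w := fun z hz w hw => hw ▸ hz
      refine e4 _ h4 _ ?_
      simp [nz, dotProduct, Fin.sum_univ_succ]
      ring
  · have hB : hypB (nz 0 0 1 a) = [![1, 0, 0, 0], ![0, 1, 0, 0],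
        ![0, 0, -(a : ℤ), 1]] := by simp [hypB, nz]
    rw [hB, mem_sub3]
    constructor
    · rintro ⟨m, hm⟩
      refine ⟨v 0, v 1, v 3, ?_⟩
      intro i
      fin_cases i
      · simp
      · simp
      · refine ⟨m, ?_⟩
        simp [nz, dotProduct, Fin.sum_univ_succ] at hm ⊢
        linear_combination hm
      all_goals simp
    · rintro ⟨r, s, t, h⟩
      have h2 := h 2
      have h3 := h 3
      simp at h2 h3
      have h4 := dvd_add h2 (Dvd.dvd.mul_left h3 (a : ℤ))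
      have e4 : ∀ z : ℤ, (p : ℤ) ∣ z → ∀ w : ℤ, w = z → (p : ℤ) ∣ w := fun z hz w hw => hw ▸ hz
      refine e4 _ h4 _ ?_
      simp [nz, dotProduct, Fin.sum_univ_succ]
      ring
  · have hB : hypB (nz 0 0 0 1) = [![1, 0, 0, 0], ![0, 1, 0, 0],
        ![0, 0, 1, 0]] := by simp [hypB, nz]
    rw [hB, mem_sub3]
    constructor
    · rintro ⟨m, hm⟩
      refine ⟨v 0, v 1, v 2, ?_⟩
      intro i
      fin_cases i
      · simp
      · simp
      · simp
      · refine ⟨m, ?_⟩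
        simp [nz, dotProduct, Fin.sum_univ_succ] at hm ⊢
        linear_combination hm
    · rintro ⟨r, s, t, h⟩
      have h3 := h 3
      simp at h3
      simpa [nz, dotProduct, Fin.sum_univ_succ] using h3

theorem idx : IdxStmt := by
  intro p _
  refine ⟨?_, ?_, ?_⟩
  · rintro x ⟨a, b, c, -, -, -, h⟩
    rcases h with rfl | rfl | rfl | rfl
    · exact idx1 p 0 _ (by simp [nz])
    · exact idx1 p 1 _ (by simp [nz])
    · exact idx1 p 2 _ (by simp [nz])
    · exact idx1 p 3 _ (by simp [nz])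
  · rintro x y ⟨a, b, c, d, -, -, -, -, h⟩
    have key : ∀ i j : Fin 4, i < j → x i = 1 → x j = 0 → y i = 0 → y j = 1 →
        Ind p x y ∧ Idx p (SubX p [x, y]) (p ^ 2) := fun i j hij h1 h2 h3 h4 =>
      ⟨ind2 p i j x y h1 h2 h3 h4, idx2 p i j x y hij h1 h2 h3 h4⟩
    rcases h with ⟨rfl, rfl⟩ | ⟨rfl, rfl⟩ | ⟨rfl, rfl⟩ | ⟨rfl, rfl⟩ | ⟨rfl, rfl⟩ | ⟨rfl, rfl⟩
    · exact key 0 1 (by decide) (by simp [nz]) (by simp [nz]) (by simp [nz]) (by simp [nz])
    · exact key 0 2 (by decide) (by simp [nz]) (by simp [nz]) (by simp [nz]) (by simp [nz])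
    · exact key 0 3 (by decide) (by simp [nz]) (by simp [nz]) (by simp [nz]) (by simp [nz])
    · exact key 1 2 (by decide) (by simp [nz]) (by simp [nz]) (by simp [nz]) (by simp [nz])
    · exact key 1 3 (by decide) (by simp [nz]) (by simp [nz]) (by simp [nz]) (by simp [nz])
    · exact key 2 3 (by decide) (by simp [nz]) (by simp [nz]) (by simp [nz]) (by simp [nz])
  · intro y hy
    refine ⟨hyp_eq p y hy, ?_⟩
    obtain ⟨a, b, c, -, -, -, h⟩ := hy
    rcases h with rfl | rfl | rfl | rfl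
    · exact idx3 p 0 _ (by simp [nz])
    · exact idx3 p 1 _ (by simp [nz])
    · exact idx3 p 2 _ (by simp [nz])
    · exact idx3 p 3 _ (by simp [nz])

end Pool.Agent.Refl.H51I
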